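import Pool.Agent.H23.Synth.Basic

/-!
The growth theorem (A1) of the project of helper87 on MP_de9001_an: if the finite classes have
elements `m, n` with `||m| - |n|| ≤ d (min |m| |n|)` and `∑ 1 / d(n)^2` diverges then the relation has the
approximation property.
-/

set_option autoImplicit false

open MeasureTheory AddCircle Filter Topology

namespace Pool.Agent.H23.Synth

open Pool.Agent.H87.Synth

noncomputable section

/-! ### Convex combinations of Fejer means -/

lemma sum_by_parts (κ : ℕ → ℝ) (k N : ℕ) :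
    ∑ i ∈ Finset.range N, (κ i - κ (i + 1)) * ((i + 1 - k : ℕ) : ℝ) =
      ∑ j ∈ Finset.Ico k N, κ j - κ N * ((N - k : ℕ) : ℝ) := by
  induction N with
  | zero => simp
  | succ N ih =>
    rw [Finset.sum_range_succ, ih]
    rcases le_or_gt k N with h | h
    · rw [Finset.sum_Ico_succ_top h, Nat.cast_sub h, Nat.cast_sub (by omega : k ≤ N + 1)]
      push_cast
      ring
    · rw [Finset.Ico_eq_empty (by omega), Finset.Ico_eq_empty (by omega)]
      have h1 : N + 1 - k = 0 := by omega
      have h2 : N - k = 0 := by omega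
      rw [h1, h2]
      simp

lemma max_mul (i : ℕ) (n : ℤ) : ((i : ℝ) + 1) * max 0 (1 - |(n : ℝ)| / (i + 1)) =
    ((i + 1 - n.natAbs : ℕ) : ℝ) := by
  have habs : |(n : ℝ)| = (n.natAbs : ℝ) := by rw [Nat.cast_natAbs, Int.cast_abs]
  rw [habs]
  rcases le_or_gt n.natAbs (i + 1) with h | h
  · have h' : (n.natAbs : ℝ) ≤ i + 1 := by exact_mod_cast h
    rw [max_eq_right (by rw [sub_nonneg, div_le_one (by positivity)]; exact h'),
      Nat.cast_sub h]
    push_cast
    field_simp
  · have h' : (i : ℝ) + 1 ≤ n.natAbs := by exact_mod_cast h.le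
    rw [max_eq_left (by rw [sub_nonpos, one_le_div (by positivity)]; exact h'),
      Nat.sub_eq_zero_of_le h.le]
    simp

/-- The operator with multiplier `∑_{|n| ≤ j < N} κ j`. -/
def Psi (κ : ℕ → ℝ) (N : ℕ) (f : L1) : L1 :=
  ∑ i ∈ Finset.range N, (((κ i - κ (i + 1)) * (i + 1) : ℝ) : ℂ) • fejer i f

lemma coeff_Psi {κ : ℕ → ℝ} {N : ℕ} (hN : κ N = 0) (f : L1) (n : ℤ) :
    coeff (Psi κ N f) n = ((∑ j ∈ Finset.Ico n.natAbs N, κ j : ℝ) : ℂ) * coeff f n := by
  rw [Psi, coeff_sum]
  simp only [coeff_smul, coeff_fejer]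
  have h := sum_by_parts κ n.natAbs N
  rw [hN, zero_mul, sub_zero] at h
  rw [← h, Complex.ofReal_sum, Finset.sum_mul]
  refine Finset.sum_congr rfl fun i _ => ?_
  rw [← max_mul]
  push_cast
  ring

lemma norm_Psi_sub_le {κ : ℕ → ℝ} {N : ℕ} (hN : κ N = 0) (hanti : ∀ i, κ (i + 1) ≤ κ i)
    (hsum : ∑ j ∈ Finset.range N, κ j = 1) (hκ : ∀ i, 0 ≤ κ i) (f : L1) {ε : ℝ} {I : ℕ}
    (hI : ∀ i, I ≤ i → ‖fejer i f - f‖ ≤ ε) (hε : 0 ≤ ε) :
    ‖Psi κ N f - f‖ ≤ ε + 2 * ‖f‖ * ∑ i ∈ Finset.range I, (i + 1) * κ i := by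
  classical
  set w : ℕ → ℝ := fun i => (κ i - κ (i + 1)) * (i + 1) with hw
  have hw0 : ∀ i, 0 ≤ w i := fun i =>
    mul_nonneg (sub_nonneg.mpr (hanti i)) (by positivity)
  have hw1 : ∑ i ∈ Finset.range N, w i = 1 := by
    have h := sum_by_parts κ 0 N
    rw [hN, zero_mul, sub_zero, Nat.Ico_zero_eq_range, hsum] at h
    rw [← h]
    refine Finset.sum_congr rfl fun i _ => ?_
    simp [hw]
  have hf : Psi κ N f - f = ∑ i ∈ Finset.range N, (w i : ℂ) • (fejer i f - f) := by
    simp only [smul_sub, Finset.sum_sub_distrib]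
    rw [← Finset.sum_smul, ← Complex.ofReal_sum, hw1, Complex.ofReal_one, one_smul]
    rfl
  rw [hf]
  refine (norm_sum_le _ _).trans ?_
  have hterm : ∀ i ∈ Finset.range N, ‖(w i : ℂ) • (fejer i f - f)‖ ≤
      w i * ε + (if i < I then 2 * ‖f‖ * ((i + 1) * κ i) else 0) := by
    intro i _
    rw [norm_smul, Complex.norm_real, Real.norm_of_nonneg (hw0 i)]
    by_cases h : i < I
    · rw [if_pos h]
      have h1 : ‖fejer i f - f‖ ≤ 2 * ‖f‖ := by
        have := norm_sub_le (fejer i f) f
        have := norm_fejer_le i f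
        linarith
      have h2 : w i ≤ (i + 1) * κ i := by
        simp only [hw]
        have := hκ (i + 1)
        nlinarith [(Nat.cast_nonneg i : (0:ℝ) ≤ i)]
      have h3 : 0 ≤ w i * ε := mul_nonneg (hw0 i) hε
      calc w i * ‖fejer i f - f‖ ≤ ((i + 1) * κ i) * (2 * ‖f‖) :=
            mul_le_mul h2 h1 (norm_nonneg _) (mul_nonneg (by positivity) (hκ i))
        _ = 2 * ‖f‖ * ((i + 1) * κ i) := by ring
        _ ≤ _ := by linarith
    · rw [if_neg h, add_zero]
      exact mul_le_mul_of_nonneg_left (hI i (not_lt.mp h)) (hw0 i)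
  refine (Finset.sum_le_sum hterm).trans ?_
  rw [Finset.sum_add_distrib, ← Finset.sum_mul, hw1, one_mul]
  refine add_le_add le_rfl ?_
  rw [← Finset.sum_filter, Finset.mul_sum]
  apply Finset.sum_le_sum_of_subset_of_nonneg
  · intro i hi
    rw [Finset.mem_filter] at hi
    exact Finset.mem_range.mpr hi.2
  · intro i _ _
    have := hκ i
    have := norm_nonneg f
    positivity

/-! ### Classes -/

/-- The smallest absolute value of an element of the class of `n`. -/
def mmin (r : Setoid ℤ) (n : ℤ) : ℕ := sInf ((fun m : ℤ => m.natAbs) '' {m | r n m})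

lemma mmin_spec (r : Setoid ℤ) (n : ℤ) : ∃ m, r n m ∧ m.natAbs = mmin r n := by
  have hne : ((fun m : ℤ => m.natAbs) '' {m | r n m}).Nonempty :=
    ⟨_, n, r.iseqv.refl n, rfl⟩
  obtain ⟨m, hm, h⟩ := Nat.sInf_mem hne
  exact ⟨m, hm, h⟩

lemma mmin_le (r : Setoid ℤ) (n : ℤ) : mmin r n ≤ n.natAbs :=
  Nat.sInf_le ⟨n, r.iseqv.refl n, rfl⟩

lemma cls_congr {r : Setoid ℤ} {m n : ℤ} (h : r m n) : {k | r m k} = {k | r n k} := by
  ext k
  exact ⟨fun hk => r.iseqv.trans (r.iseqv.symm h) hk, fun hk => r.iseqv.trans h hk⟩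

lemma mmin_congr {r : Setoid ℤ} {m n : ℤ} (h : r m n) : mmin r m = mmin r n := by
  unfold mmin
  rw [cls_congr h]

/-- **Theorem (A1).** -/
theorem approx_growth (r : Setoid ℤ) (d : ℕ → ℝ) (hpos : ∀ n, 0 < d n) (hmono : Monotone d)
    (hdiv : ¬ Summable fun n => 1 / d n ^ 2)
    (h : ∀ m n, {k | r m k}.Finite → r m n → |(m.natAbs : ℝ) - n.natAbs| ≤
      d (min m.natAbs n.natAbs)) : Approx r := by
  classical
  intro f hf1 hf2 ε hε
  set a : ℕ → ℝ := fun n => 1 / d n ^ 2 with ha
  have ha0 : ∀ n, 0 < a n := fun n => by have := hpos n; simp only [ha]; positivity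
  have hanti : Antitone a := by
    intro m n hmn
    simp only [ha]
    have := hpos m
    have := hmono hmn
    gcongr
  have hT : Tendsto (fun N => ∑ i ∈ Finset.range N, a i) atTop atTop :=
    (not_summable_iff_tendsto_nat_atTop_of_nonneg fun n => (ha0 n).le).mp hdiv
  obtain ⟨I, hI⟩ := Metric.tendsto_atTop.mp (tendsto_fejer f) (ε / 4) (by positivity)
  set C := 2 * ‖f‖ * ∑ i ∈ Finset.range I, (i + 1) * a i with hC
  have hC0 : 0 ≤ C := by
    have : 0 ≤ ∑ i ∈ Finset.range I, ((i : ℝ) + 1) * a i :=
      Finset.sum_nonneg fun i _ => mul_nonneg (by positivity) (ha0 i).le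
    positivity
  obtain ⟨N, hN⟩ := (hT.eventually_ge_atTop (1 + 4 * C / ε + 64 * ‖f‖ ^ 2 / ε ^ 2)).exists
  set T := ∑ i ∈ Finset.range N, a i with hTdef
  have hp1 : 0 ≤ 4 * C / ε := by positivity
  have hp2 : 0 ≤ 64 * ‖f‖ ^ 2 / ε ^ 2 := by positivity
  have hT1 : 1 ≤ T := by linarith
  have hT0 : 0 < T := by linarith
  set κ : ℕ → ℝ := fun k => if k < N then a k / T else 0 with hκ
  have hκN : κ N = 0 := by simp [hκ]
  have hκ0 : ∀ i, 0 ≤ κ i := by
    intro i
    simp only [hκ]
    split_ifs
    · have := ha0 i; positivity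
    · exact le_rfl
  have hκanti : ∀ i, κ (i + 1) ≤ κ i := by
    intro i
    simp only [hκ]
    by_cases h1 : i + 1 < N
    · rw [if_pos h1, if_pos (by omega)]
      have := hanti (Nat.le_succ i)
      gcongr
    · rw [if_neg h1]
      exact hκ0 i
  have hκsum : ∑ j ∈ Finset.range N, κ j = 1 := by
    have : ∀ j ∈ Finset.range N, κ j = a j / T := by
      intro j hj
      simp only [hκ]
      rw [if_pos (Finset.mem_range.mp hj)]
    rw [Finset.sum_congr rfl this, ← Finset.sum_div, ← hTdef, div_self hT0.ne']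
  have hκle : ∀ i, κ i ≤ a i / T := by
    intro i
    simp only [hκ]
    split_ifs
    · exact le_rfl
    · have := ha0 i; positivity
  have hκlt : ∀ j, j < N → κ j = a j / T := by
    intro j hj
    simp only [hκ]
    rw [if_pos hj]
  clear_value κ
  -- first error
  have herr1 : ‖Psi κ N f - f‖ ≤ ε / 2 := by
    refine (norm_Psi_sub_le hκN hκanti hκsum hκ0 f (ε := ε / 4) (I := I)
      (fun i hi => ?_) (by positivity)).trans ?_
    · have := hI i hi
      rw [dist_eq_norm] at this
      exact this.le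
    · have h1 : ∑ i ∈ Finset.range I, ((i : ℝ) + 1) * κ i ≤
          (∑ i ∈ Finset.range I, ((i : ℝ) + 1) * a i) / T := by
        rw [Finset.sum_div]
        apply Finset.sum_le_sum
        intro i _
        rw [mul_div_assoc]
        exact mul_le_mul_of_nonneg_left (hκle i) (by positivity)
      have h2 : 2 * ‖f‖ * ∑ i ∈ Finset.range I, ((i : ℝ) + 1) * κ i ≤ C / T := by
        rw [hC, mul_div_assoc]
        exact mul_le_mul_of_nonneg_left h1 (by positivity)
      have h3 : C / T ≤ ε / 4 := by
        rw [div_le_iff₀ hT0]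
        have : 4 * C / ε ≤ T := by linarith
        rw [div_le_iff₀ hε] at this
        linarith
      linarith
  -- the polynomial
  set ψ : ℕ → ℝ := fun k => ∑ j ∈ Finset.Ico k N, κ j with hψ
  set M : ℕ := N + ⌊d N⌋₊ + 1 with hM
  have hclose : ∀ n : ℤ, {k | r n k}.Finite → (n.natAbs : ℝ) ≤ mmin r n + d (mmin r n) := by
    intro n hn
    obtain ⟨m, hm, hm2⟩ := mmin_spec r n
    have h1 := h n m hn hm
    rw [hm2, min_eq_right (mmin_le r n)] at h1
    linarith [le_abs_self ((n.natAbs : ℝ) - mmin r n)]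
  set g : ℤ → ℂ := fun n => if {k | r n k}.Finite then (ψ (mmin r n) : ℂ) * coeff f n else 0
    with hg
  have hgsupp : ∀ n, g n ≠ 0 → n ∈ Finset.Icc (-(M : ℤ)) M := by
    intro n hn
    simp only [hg] at hn
    by_cases hfin : {k | r n k}.Finite
    · rw [if_pos hfin] at hn
      have hlt : mmin r n < N := by
        by_contra hge
        apply hn
        have : ψ (mmin r n) = 0 := by
          simp only [hψ]
          rw [Finset.Ico_eq_empty (by omega), Finset.sum_empty]
        rw [this]; simp
      have h1 := hclose n hfin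
      have h2 : d (mmin r n) ≤ d N := hmono hlt.le
      have h3 : d N < ⌊d N⌋₊ + 1 := Nat.lt_floor_add_one _
      have h4 : (mmin r n : ℝ) ≤ N := by exact_mod_cast hlt.le
      have h5 : (n.natAbs : ℝ) ≤ M := by rw [hM]; push_cast; linarith
      have h6 : n.natAbs ≤ M := by exact_mod_cast h5
      rw [Finset.mem_Icc]
      omega
    · rw [if_neg hfin] at hn
      exact absurd rfl hn
  set c : ℤ →₀ ℂ := Finsupp.onFinset (Finset.Icc (-(M : ℤ)) M) g hgsupp with hc
  have hcg : ∀ n, c n = g n := fun n => rfl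
  refine ⟨c, ?_, ?_⟩
  · intro m n hmn
    rw [hcg, hcg]
    simp only [hg]
    rw [cls_congr hmn, mmin_congr hmn]
    have : coeff f m = coeff f n := hf1 m n hmn
    rw [this]
  · set s := Finset.Icc (-(M : ℤ)) M with hs
    have hsum : (∑ n ∈ c.support, c n • (fourierLp 1 n : L1)) = ∑ n ∈ s, g n • ex n := by
      refine Finset.sum_subset ?_ ?_
      · intro n hn
        exact hgsupp n (by rw [← hcg]; exact Finsupp.mem_support_iff.mp hn)
      · intro n _ hn
        rw [Finsupp.notMem_support_iff.mp hn, zero_smul]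
    rw [hsum]
    have hPsi : Psi κ N f = ∑ n ∈ s, ((ψ n.natAbs : ℂ) * coeff f n) • ex n := by
      apply ext_coeff
      intro n
      rw [coeff_Psi hκN, coeff_sum]
      simp only [coeff_smul, coeff_ex]
      simp only [mul_ite, mul_one, mul_zero, Finset.sum_ite_eq']
      by_cases hn : n ∈ s
      · rw [if_pos hn]
      · rw [if_neg hn]
        have : N ≤ n.natAbs := by
          rw [hs, Finset.mem_Icc] at hn
          omega
        rw [Finset.Ico_eq_empty (by omega), Finset.sum_empty]
        simp
    set v : ℤ → ℂ := fun n => (ψ n.natAbs : ℂ) * coeff f n - g n with hv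
    have hdiff : Psi κ N f - ∑ n ∈ s, g n • ex n = ∑ n ∈ s, v n • ex n := by
      rw [hPsi, ← Finset.sum_sub_distrib]
      refine Finset.sum_congr rfl fun n _ => ?_
      rw [← sub_smul]
    -- the main estimate
    set X : ℤ → ℕ → Prop := fun n j => {k | r n k}.Finite ∧ mmin r n ≤ j ∧ j < n.natAbs with hX
    have hvn : ∀ n ∈ s, ‖v n‖ ^ 2 ≤ ‖f‖ ^ 2 *
        ∑ j ∈ Finset.range N, (if X n j then d j * κ j ^ 2 else 0) := by
      intro n _
      by_cases hfin : {k | r n k}.Finite
      · have hv1 : v n = ((ψ n.natAbs - ψ (mmin r n) : ℝ) : ℂ) * coeff f n := by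
          simp only [hv, hg]
          rw [if_pos hfin]
          push_cast
          ring
        have hdecomp : ψ (mmin r n) - ψ n.natAbs =
            ∑ j ∈ (Finset.range N).filter (X n), κ j := by
          simp only [hψ]
          have h1 : ∀ k, ∑ j ∈ Finset.Ico k N, κ j =
              ∑ j ∈ Finset.range N, if k ≤ j then κ j else 0 := by
            intro k
            refine Eq.trans ?_ (Finset.sum_filter (fun j => k ≤ j) κ)
            refine Finset.sum_congr ?_ fun _ _ => rfl
            ext j
            simp only [Finset.mem_Ico, Finset.mem_filter, Finset.mem_range]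
            tauto
          rw [h1, h1, ← Finset.sum_sub_distrib, Finset.sum_filter]
          refine Finset.sum_congr rfl fun j _ => ?_
          have hml := mmin_le r n
          by_cases h2 : mmin r n ≤ j
          · by_cases h3 : n.natAbs ≤ j
            · rw [if_pos h2, if_pos h3, if_neg, sub_self]
              rintro ⟨_, _, h4⟩
              omega
            · rw [if_pos h2, if_neg h3, if_pos ⟨hfin, h2, not_le.mp h3⟩, sub_zero]
          · rw [if_neg h2, if_neg (by omega), if_neg, sub_self]
            rintro ⟨_, h4, _⟩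
            exact h2 h4
        set Bn := (Finset.range N).filter (X n) with hBn
        have hcs : (∑ j ∈ Bn, κ j) ^ 2 ≤ (Bn.card : ℝ) * ∑ j ∈ Bn, κ j ^ 2 :=
          sq_sum_le_card_mul_sum_sq
        have hcard : ∀ j ∈ Bn, (Bn.card : ℝ) ≤ d j := by
          intro j hj
          have hXj : X n j := (Finset.mem_filter.mp hj).2
          have hsub : Bn ⊆ Finset.Ico (mmin r n) n.natAbs := by
            intro i hi
            have hXi : X n i := (Finset.mem_filter.mp hi).2
            exact Finset.mem_Ico.mpr ⟨hXi.2.1, hXi.2.2⟩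
          have h1 : Bn.card ≤ n.natAbs - mmin r n := by
            have := Finset.card_le_card hsub
            rwa [Nat.card_Ico] at this
          have h2 : (Bn.card : ℝ) ≤ (n.natAbs : ℝ) - mmin r n := by
            rw [← Nat.cast_sub (mmin_le r n)]
            exact_mod_cast h1
          have h3 := hclose n hfin
          have h4 : d (mmin r n) ≤ d j := hmono hXj.2.1
          linarith
        rw [hv1, norm_mul, mul_pow, Complex.norm_real, Real.norm_eq_abs, sq_abs,
          ← Finset.sum_filter, ← hBn]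
        have h5 : (ψ n.natAbs - ψ (mmin r n)) ^ 2 ≤ ∑ j ∈ Bn, d j * κ j ^ 2 := by
          have : (ψ n.natAbs - ψ (mmin r n)) ^ 2 = (ψ (mmin r n) - ψ n.natAbs) ^ 2 := by ring
          rw [this, hdecomp]
          refine hcs.trans ?_
          rw [Finset.mul_sum]
          apply Finset.sum_le_sum
          intro j hj
          exact mul_le_mul_of_nonneg_right (hcard j hj) (sq_nonneg _)
        have h6 : ‖coeff f n‖ ^ 2 ≤ ‖f‖ ^ 2 :=
          pow_le_pow_left₀ (norm_nonneg _) (norm_coeff_le f n) 2
        calc (ψ n.natAbs - ψ (mmin r n)) ^ 2 * ‖coeff f n‖ ^ 2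
            ≤ (∑ j ∈ Bn, d j * κ j ^ 2) * ‖f‖ ^ 2 := by
              apply mul_le_mul h5 h6 (sq_nonneg _)
              exact Finset.sum_nonneg fun j _ => mul_nonneg (hpos j).le (sq_nonneg _)
          _ = _ := by ring
      · have h0 : coeff f n = 0 := hf2 n hfin
        have : v n = 0 := by
          simp only [hv, hg]
          rw [if_neg hfin, h0]
          simp
        rw [this, norm_zero, zero_pow two_ne_zero]
        have : 0 ≤ ∑ j ∈ Finset.range N, (if X n j then d j * κ j ^ 2 else 0) := by
          apply Finset.sum_nonneg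
          intro j _
          split_ifs
          · exact mul_nonneg (hpos j).le (sq_nonneg _)
          · exact le_rfl
        positivity
    have hcount : ∀ j, ((s.filter fun n => X n j).card : ℝ) ≤ 2 * d j := by
      intro j
      set Dj := ⌊d j⌋₊ with hDj
      have hsub : (s.filter fun n => X n j) ⊆
          (Finset.Ioc j (j + Dj)).image (fun k : ℕ => (k : ℤ)) ∪
          (Finset.Ioc j (j + Dj)).image (fun k : ℕ => -(k : ℤ)) := by
        intro n hn
        obtain ⟨hfin, h1, h2⟩ := (Finset.mem_filter.mp hn).2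
        have h3 := hclose n hfin
        have h4 : d (mmin r n) ≤ d j := hmono h1
        have h5 : ((n.natAbs - j : ℕ) : ℝ) ≤ d j := by
          rw [Nat.cast_sub h2.le]
          have : (mmin r n : ℝ) ≤ j := by exact_mod_cast h1
          linarith
        have h6 : n.natAbs - j ≤ Dj := Nat.le_floor h5
        have h7 : n.natAbs ∈ Finset.Ioc j (j + Dj) := by
          rw [Finset.mem_Ioc]; omega
        rw [Finset.mem_union, Finset.mem_image, Finset.mem_image]
        rcases le_or_gt 0 n with hn0 | hn0
        · exact Or.inl ⟨n.natAbs, h7, by omega⟩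
        · exact Or.inr ⟨n.natAbs, h7, by omega⟩
      have h1 := (Finset.card_le_card hsub).trans (Finset.card_union_le _ _)
      have h2 : ((Finset.Ioc j (j + Dj)).image (fun k : ℕ => (k : ℤ))).card ≤ Dj := by
        refine Finset.card_image_le.trans ?_
        rw [Nat.card_Ioc]; omega
      have h3 : ((Finset.Ioc j (j + Dj)).image (fun k : ℕ => -(k : ℤ))).card ≤ Dj := by
        refine Finset.card_image_le.trans ?_
        rw [Nat.card_Ioc]; omega
      have h4 : (s.filter fun n => X n j).card ≤ 2 * Dj := by omega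
      have h5 : (Dj : ℝ) ≤ d j := Nat.floor_le (hpos j).le
      calc ((s.filter fun n => X n j).card : ℝ) ≤ ((2 * Dj : ℕ) : ℝ) := by exact_mod_cast h4
        _ ≤ 2 * d j := by push_cast; linarith
    have htotal : ∑ n ∈ s, ‖v n‖ ^ 2 ≤ ‖f‖ ^ 2 * (2 / T) := by
      calc ∑ n ∈ s, ‖v n‖ ^ 2 ≤ ∑ n ∈ s, ‖f‖ ^ 2 *
            ∑ j ∈ Finset.range N, (if X n j then d j * κ j ^ 2 else 0) := Finset.sum_le_sum hvn
        _ = ‖f‖ ^ 2 * ∑ j ∈ Finset.range N, ∑ n ∈ s, (if X n j then d j * κ j ^ 2 else 0) := by
            rw [← Finset.mul_sum, Finset.sum_comm]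
        _ ≤ ‖f‖ ^ 2 * (2 / T) := by
            apply mul_le_mul_of_nonneg_left _ (sq_nonneg _)
            calc ∑ j ∈ Finset.range N, ∑ n ∈ s, (if X n j then d j * κ j ^ 2 else 0)
                ≤ ∑ j ∈ Finset.range N, 2 / T * (a j / T) := by
                  apply Finset.sum_le_sum
                  intro j hj
                  rw [← Finset.sum_filter, Finset.sum_const, nsmul_eq_mul]
                  have hκj : κ j = a j / T := hκlt j (Finset.mem_range.mp hj)
                  have hdj := hpos j
                  calc ((s.filter fun n => X n j).card : ℝ) * (d j * κ j ^ 2)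
                      ≤ (2 * d j) * (d j * κ j ^ 2) := by
                        apply mul_le_mul_of_nonneg_right (hcount j)
                        positivity
                    _ = 2 / T * (a j / T) := by
                        rw [hκj]
                        simp only [ha]
                        field_simp
              _ = 2 / T := by
                  rw [← Finset.mul_sum, ← Finset.sum_div, ← hTdef, div_self hT0.ne', mul_one]
    have herr2 : ‖Psi κ N f - ∑ n ∈ s, g n • ex n‖ ≤ ε / 4 := by
      rw [hdiff]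
      have h1 := (norm_sum_ex_sq_le s v).trans htotal
      have h2 : ‖f‖ ^ 2 * (2 / T) ≤ (ε / 4) ^ 2 := by
        have : 64 * ‖f‖ ^ 2 / ε ^ 2 ≤ T := by linarith
        rw [div_le_iff₀ (by positivity)] at this
        rw [← mul_div_assoc, div_le_iff₀ hT0]
        nlinarith [sq_nonneg ‖f‖]
      exact (sq_le_sq₀ (norm_nonneg _) (by positivity)).mp (h1.trans h2)
    have e : f - ∑ n ∈ s, g n • ex n =
        (Psi κ N f - ∑ n ∈ s, g n • ex n) - (Psi κ N f - f) := by abel
    rw [e]
    refine (norm_sub_le _ _).trans_lt ?_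
    linarith

end

end Pool.Agent.H23.Synth
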