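import Mathlib
import Pool.Agent.H87.Synth.Conv

/-!
`L¹` norm of a trigonometric polynomial against the `ℓ²` norm of its coefficients, and convex
combinations of Fejer means. For the project of helper87 on MP_de9001_an.
-/

set_option autoImplicit false

open MeasureTheory AddCircle Filter Topology

namespace Pool.Agent.H23.Synth

open Pool.Agent.H87.Synth

noncomputable section

lemma fourier_conj_mul_integral (m n : ℤ) :
    ∫ x : Circ, (starRingEnd ℂ (fourier m x)) * fourier n x ∂haarAddCircle =
      if m = n then 1 else 0 := by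
  have h : ∀ x : Circ, (starRingEnd ℂ (fourier m x)) * fourier n x = fourier (-m) x * fourier n x := by
    intro x; rw [fourier_neg]
  simp only [h]
  have h2 : ∫ x : Circ, (fourier (-m) x : ℂ) * fourier n x ∂haarAddCircle = coeff (ex n) m := by
    rw [coeff_def]
    refine integral_congr_ae ?_
    filter_upwards [coeFn_ex n] with x hx
    rw [hx]
  rw [h2, coeff_ex]
  simp only [eq_comm]

lemma integral_norm_sq_sum (s : Finset ℤ) (w : ℤ → ℂ) :
    ∫ x : Circ, ‖∑ k ∈ s, w k * (fourier k x : ℂ)‖ ^ 2 ∂haarAddCircle = ∑ k ∈ s, ‖w k‖ ^ 2 := by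
  have h : ∀ x : Circ, ((‖∑ k ∈ s, w k * (fourier k x : ℂ)‖ ^ 2 : ℝ) : ℂ) =
      ∑ k ∈ s, ∑ l ∈ s, (starRingEnd ℂ (w k) * w l) *
        (starRingEnd ℂ (fourier k x) * fourier l x) := by
    intro x
    push_cast
    rw [← Complex.conj_mul', map_sum, Finset.sum_mul_sum]
    refine Finset.sum_congr rfl fun k _ => Finset.sum_congr rfl fun l _ => ?_
    rw [map_mul]; ring
  have hint : ∀ k l : ℤ, Integrable (fun x : Circ => (starRingEnd ℂ (w k) * w l) *
      (starRingEnd ℂ (fourier k x) * fourier l x)) haarAddCircle := by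
    intro k l
    refine Integrable.const_mul ?_ _
    refine Continuous.integrable_of_hasCompactSupport ?_ (HasCompactSupport.of_compactSpace _)
    have h1 : Continuous fun x : Circ => (fourier k x : ℂ) := (fourier k).continuous
    have h2 : Continuous fun x : Circ => (fourier l x : ℂ) := (fourier l).continuous
    exact (Complex.continuous_conj.comp h1).mul h2
  have key : ((∫ x : Circ, ‖∑ k ∈ s, w k * (fourier k x : ℂ)‖ ^ 2 ∂haarAddCircle : ℝ) : ℂ) =
      ((∑ k ∈ s, ‖w k‖ ^ 2 : ℝ) : ℂ) := by
    refine (integral_ofReal (𝕜 := ℂ)).symm.trans ?_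
    refine (integral_congr_ae (Eventually.of_forall h)).trans ?_
    rw [integral_finset_sum s fun k _ => integrable_finset_sum s fun l _ => hint k l]
    push_cast
    refine Finset.sum_congr rfl fun k hk => ?_
    rw [integral_finset_sum s fun l _ => hint k l]
    simp only [integral_const_mul, fourier_conj_mul_integral]
    simp only [mul_ite, mul_one, mul_zero]
    rw [Finset.sum_ite_eq s k, if_pos hk, ← Complex.conj_mul']
  exact_mod_cast key

/-- The `L¹` norm is at most the `ℓ²` norm of the coefficients. -/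
theorem norm_sum_ex_sq_le (s : Finset ℤ) (w : ℤ → ℂ) :
    ‖(∑ k ∈ s, w k • ex k : L1)‖ ^ 2 ≤ ∑ k ∈ s, ‖w k‖ ^ 2 := by
  rw [norm_sum_ex, ← integral_norm_sq_sum]
  set g : Circ → ℝ := fun x => ‖∑ k ∈ s, w k * (fourier k x : ℂ)‖ with hg
  have hgc : Continuous g := by
    refine continuous_norm.comp (continuous_finsetSum s fun k _ => ?_)
    exact continuous_const.mul (fourier k).continuous
  have hi1 : Integrable g haarAddCircle :=
    hgc.integrable_of_hasCompactSupport (HasCompactSupport.of_compactSpace _)
  have hi2 : Integrable (fun x => g x ^ 2) haarAddCircle :=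
    (hgc.pow 2).integrable_of_hasCompactSupport (HasCompactSupport.of_compactSpace _)
  set c := ∫ x, g x ∂haarAddCircle with hc
  have h0 : 0 ≤ ∫ x, (g x - c) ^ 2 ∂haarAddCircle := integral_nonneg fun x => sq_nonneg _
  have h1 : ∫ x, (g x - c) ^ 2 ∂haarAddCircle = ∫ x, g x ^ 2 ∂haarAddCircle - c ^ 2 := by
    have e : ∀ x, (g x - c) ^ 2 = g x ^ 2 - (2 * c * g x - c ^ 2) := fun x => by ring
    have hi3 : Integrable (fun x => 2 * c * g x) haarAddCircle := hi1.const_mul _
    have hi4 : Integrable (fun x => 2 * c * g x - c ^ 2) haarAddCircle :=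
      hi3.sub (integrable_const _)
    have e2 : ∫ x, (g x - c) ^ 2 ∂haarAddCircle =
        ∫ x, (g x ^ 2 - (2 * c * g x - c ^ 2)) ∂haarAddCircle := integral_congr_ae
      (Eventually.of_forall e)
    rw [e2, integral_sub hi2 hi4, integral_sub hi3 (integrable_const _), integral_const_mul, ← hc]
    simp
    ring
  linarith

end

end Pool.Agent.H23.Synth
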