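import Pool.Agent.H23.Synth.Kernel

/-!
The interval theorem (B) of the project of helper87 on MP_de9001_an: if every class is order convex
then the relation has the approximation property.
-/

set_option autoImplicit false

open MeasureTheory AddCircle Filter Topology

namespace Pool.Agent.H23.Synth

open Pool.Agent.H87.Synth

noncomputable section

/-- The Fejer multiplier. -/
def psiN (N : ℕ) (k : ℤ) : ℝ := max 0 (1 - |(k : ℝ)| / N)

/-- Its difference. -/
def kapN (N : ℕ) (k : ℤ) : ℝ := psiN N k - psiN N (k + 1)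

lemma psiN_eq_zero {N : ℕ} (hN : 1 ≤ N) {k : ℤ} (h : (N : ℤ) ≤ |k|) : psiN N k = 0 := by
  unfold psiN
  have hN0 : (0:ℝ) < N := by exact_mod_cast hN
  apply max_eq_left
  rw [sub_nonpos, one_le_div hN0]
  exact_mod_cast h

lemma psiN_eq {N : ℕ} (hN : 1 ≤ N) {k : ℤ} (h : |k| ≤ N) : psiN N k = 1 - |(k : ℝ)| / N := by
  unfold psiN
  have hN0 : (0:ℝ) < N := by exact_mod_cast hN
  apply max_eq_right
  rw [sub_nonneg, div_le_one hN0]
  exact_mod_cast h

lemma kapN_nonneg_eq {N : ℕ} (hN : 1 ≤ N) {k : ℤ} (h0 : 0 ≤ k) (h1 : k < N) :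
    kapN N k = 1 / N := by
  have hN0 : (0:ℝ) < N := by exact_mod_cast hN
  rw [kapN, psiN_eq hN (by rw [abs_of_nonneg h0]; omega),
    psiN_eq hN (by rw [abs_of_nonneg (by omega)]; omega)]
  have h2 : (0:ℝ) ≤ k := by exact_mod_cast h0
  push_cast
  rw [abs_of_nonneg h2, abs_of_nonneg (by linarith)]
  field_simp
  ring

lemma kapN_neg_eq {N : ℕ} (hN : 1 ≤ N) {k : ℤ} (h0 : k < 0) (h1 : -(N : ℤ) ≤ k) :
    kapN N k = -(1 / N) := by
  have hN0 : (0:ℝ) < N := by exact_mod_cast hN
  rw [kapN, psiN_eq hN (by rw [abs_of_neg h0]; omega),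
    psiN_eq hN (by rw [abs_of_nonpos (by omega)]; omega)]
  have h2 : (k : ℝ) + 1 ≤ 0 := by exact_mod_cast h0
  push_cast
  rw [abs_of_nonpos (by linarith), abs_of_nonpos h2]
  field_simp
  ring

lemma abs_kapN {N : ℕ} (hN : 1 ≤ N) {k : ℤ} (h1 : -(N : ℤ) ≤ k) (h2 : k < N) :
    |kapN N k| = 1 / N := by
  have hN0 : (0:ℝ) < N := by exact_mod_cast hN
  rcases le_or_gt 0 k with h | h
  · rw [kapN_nonneg_eq hN h h2, abs_of_pos (by positivity)]
  · rw [kapN_neg_eq hN h h1, abs_neg, abs_of_pos (by positivity)]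

/-- The partial sums. -/
def Dsum (N : ℕ) (f : L1) (n : ℤ) : ℂ :=
  ∑ k ∈ Finset.Ico (-(N : ℤ)) n, (kapN N k : ℂ) * coeff f k

lemma Dsum_succ (N : ℕ) (f : L1) {n : ℤ} (hn : -(N : ℤ) ≤ n) :
    Dsum N f (n + 1) = Dsum N f n + (kapN N n : ℂ) * coeff f n := by
  unfold Dsum
  have h1 : Finset.Ico (-(N : ℤ)) (n + 1) = insert n (Finset.Ico (-(N : ℤ)) n) := by
    ext k; simp only [Finset.mem_Ico, Finset.mem_insert]; omega
  rw [h1, Finset.sum_insert (by simp)]
  ring

lemma norm_Dsum_le {N : ℕ} (hN : 1 ≤ N) (f : L1) : ‖Dsum N f N‖ ≤ 2 * ‖f‖ := by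
  have hN0 : (0:ℝ) < N := by exact_mod_cast hN
  unfold Dsum
  have h1 : ∀ k ∈ Finset.Ico (-(N : ℤ)) N, ‖(kapN N k : ℂ) * coeff f k‖ ≤ 1 / N * ‖f‖ := by
    intro k hk
    rw [Finset.mem_Ico] at hk
    rw [norm_mul, Complex.norm_real, Real.norm_eq_abs, abs_kapN hN hk.1 hk.2]
    have := norm_coeff_le f k
    gcongr
  refine (norm_sum_le _ _).trans ((Finset.sum_le_sum h1).trans (le_of_eq ?_))
  rw [Finset.sum_const, Int.card_Ico, nsmul_eq_mul]
  have h3 : (((N : ℤ) - -(N : ℤ)).toNat : ℝ) = 2 * N := by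
    have : ((N : ℤ) - -(N : ℤ)).toNat = 2 * N := by omega
    rw [this]; push_cast; ring
  rw [h3]
  field_simp

lemma Dsum_add (N : ℕ) (f g : L1) (n : ℤ) : Dsum N (f + g) n = Dsum N f n + Dsum N g n := by
  simp only [Dsum, coeff_add, mul_add, Finset.sum_add_distrib]

lemma Dsum_smul (N : ℕ) (c : ℂ) (f : L1) (n : ℤ) : Dsum N (c • f) n = c * Dsum N f n := by
  simp only [Dsum, coeff_smul, Finset.mul_sum]
  refine Finset.sum_congr rfl fun k _ => by ring

lemma Eop_add (N : ℕ) (f g : L1) : Eop N (f + g) = Eop N f + Eop N g := by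
  simp only [Eop, coeff_add, add_smul, Finset.sum_add_distrib, smul_add]

lemma Eop_smul (N : ℕ) (c : ℂ) (f : L1) : Eop N (c • f) = c • Eop N f := by
  simp only [Eop, coeff_smul, Finset.smul_sum, smul_smul]
  refine Finset.sum_congr rfl fun k _ => ?_
  congr 1
  ring

lemma norm_Eop_ex_le (N : ℕ) (j : ℤ) : ‖Eop N (ex j)‖ ≤ ‖Bk j‖ / N := by
  rw [Eop]
  simp only [coeff_ex, ite_smul, one_smul, zero_smul]
  rw [Finset.sum_ite_eq, norm_smul, norm_neg, norm_div, norm_one, Complex.norm_natCast]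
  split_ifs
  · rw [one_div_mul_eq_div]
  · rw [norm_zero, mul_zero]; positivity

lemma norm_Dsum_ex_le {N : ℕ} (hN : 1 ≤ N) (j : ℤ) : ‖Dsum N (ex j) N‖ ≤ 1 / N := by
  unfold Dsum
  simp only [coeff_ex, mul_ite, mul_one, mul_zero]
  rw [Finset.sum_ite_eq]
  split_ifs with h
  · rw [Finset.mem_Ico] at h
    rw [Complex.norm_real, Real.norm_eq_abs, abs_kapN hN h.1 h.2]
  · rw [norm_zero]; positivity

lemma tendsto_span {q : L1} (hq : q ∈ Submodule.span ℂ (Set.range ex)) :
    Tendsto (fun N : ℕ => Eop N q) atTop (𝓝 0) ∧ Tendsto (fun N : ℕ => Dsum N q N) atTop (𝓝 0) := by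
  induction hq using Submodule.span_induction with
  | mem x hx =>
    obtain ⟨j, rfl⟩ := hx
    constructor
    · refine squeeze_zero_norm (fun N => norm_Eop_ex_le N j) ?_
      exact tendsto_const_nhds.div_atTop tendsto_natCast_atTop_atTop
    · refine squeeze_zero_norm' (a := fun N : ℕ => 1 / (N : ℝ)) ?_ ?_
      · filter_upwards [eventually_ge_atTop 1] with N hN using norm_Dsum_ex_le hN j
      · exact tendsto_const_nhds.div_atTop tendsto_natCast_atTop_atTop
  | zero =>
    have h1 : ∀ N, Eop N 0 = 0 := fun N => by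
      have := Eop_smul N 0 0
      simpa using this
    have h2 : ∀ N : ℕ, Dsum N 0 N = 0 := fun N => by
      have := Dsum_smul N 0 0 N
      simpa using this
    simp only [h1, h2]
    exact ⟨tendsto_const_nhds, tendsto_const_nhds⟩
  | add x y _ _ hx hy =>
    simp only [Eop_add, Dsum_add]
    constructor
    · simpa using hx.1.add hy.1
    · simpa using hx.2.add hy.2
  | smul a x _ hx =>
    simp only [Eop_smul, Dsum_smul]
    constructor
    · simpa using hx.1.const_smul a
    · simpa using hx.2.const_mul a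

lemma coeff_Eop {N : ℕ} (hN : 1 ≤ N) (f : L1) {n : ℤ} (h1 : -(N : ℤ) ≤ n) (h2 : n < N) :
    coeff (Eop N f) n = Dsum N f n - if 0 ≤ n then Dsum N f N else 0 := by
  have hN0 : (N : ℂ) ≠ 0 := by
    have : (N : ℝ) ≠ 0 := by positivity
    exact_mod_cast this
  have hD : Dsum N f n = ∑ k ∈ Finset.Ico (-(N : ℤ)) N,
      if k < n then (kapN N k : ℂ) * coeff f k else 0 := by
    rw [Dsum, ← Finset.sum_filter]
    congr 1
    ext k
    simp only [Finset.mem_Ico, Finset.mem_filter]
    omega
  have hD2 : (if 0 ≤ n then Dsum N f N else 0) = ∑ k ∈ Finset.Ico (-(N : ℤ)) N,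
      if 0 ≤ n then (kapN N k : ℂ) * coeff f k else 0 := by
    split_ifs
    · rfl
    · simp
  rw [hD, hD2, ← Finset.sum_sub_distrib, Eop, coeff_smul, coeff_sum, Finset.mul_sum]
  refine Finset.sum_congr rfl fun k hk => ?_
  rw [Finset.mem_Ico] at hk
  rw [coeff_smul, coeff_Bk]
  rcases le_or_gt 0 k with hk0 | hk0
  · rw [kapN_nonneg_eq hN hk0 hk.2]
    push_cast
    by_cases c1 : 0 ≤ n
    · by_cases c2 : n ≤ k
      · rw [if_pos (by omega), if_neg (by omega), if_pos c1]; ring
      · rw [if_neg (by omega), if_pos (by omega), if_pos c1]; ring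
    · rw [if_neg (by omega), if_neg (by omega), if_neg c1]; ring
  · rw [kapN_neg_eq hN hk0 hk.1]
    push_cast
    by_cases c1 : 0 ≤ n
    · rw [if_neg (by omega), if_pos (by omega), if_pos c1]; ring
    · by_cases c2 : k < n
      · rw [if_pos (by omega), if_pos (by omega), if_neg c1]; ring
      · rw [if_neg (by omega), if_neg (by omega), if_neg c1]; ring

lemma coeff_Eop_zero {N : ℕ} (f : L1) {n : ℤ} (h : n < -(N : ℤ) ∨ (N : ℤ) ≤ n) :
    coeff (Eop N f) n = 0 := by
  rw [Eop, coeff_smul, coeff_sum, Finset.sum_eq_zero, mul_zero]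
  intro k hk
  rw [Finset.mem_Ico] at hk
  rw [coeff_smul, coeff_Bk, if_neg (by omega), mul_zero]

/-- **Theorem (B).** -/
theorem approx_interval (r : Setoid ℤ) (h : ∀ n, Set.OrdConnected {m | r n m}) : Approx r := by
  classical
  intro f hf1 hf2 ε hε
  by_cases hL : ∀ n : ℤ, r (n - 1) n
  · -- one class
    have hall : ∀ n : ℤ, r 0 n := by
      intro n
      induction n using Int.induction_on with
      | zero => exact r.iseqv.refl 0
      | succ i ih =>
        have := hL ((i : ℤ) + 1)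
        rw [add_sub_cancel_right] at this
        exact r.iseqv.trans ih this
      | pred i ih => exact r.iseqv.trans ih (r.iseqv.symm (hL (-(i : ℤ))))
    have hcls : ∀ n : ℤ, {m | r n m} = Set.univ := by
      intro n
      ext m
      simp only [Set.mem_univ, iff_true]
      exact r.iseqv.trans (r.iseqv.symm (hall n)) (hall m)
    have hf0 : f = 0 := by
      apply ext_coeff
      intro n
      rw [coeff_zero]
      exact hf2 n (by rw [hcls n]; exact Set.infinite_univ)
    refine ⟨0, fun m n _ => rfl, ?_⟩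
    rw [hf0]
    simpa using hε
  push Not at hL
  obtain ⟨x, hx⟩ := hL
  -- choice of the scale
  set X : ℝ := (x.natAbs : ℝ) with hX
  have hX0 : 0 ≤ X := Nat.cast_nonneg _
  set ε' := ε / (4 * (73 + 2 * X)) with hε'
  have hε'0 : 0 < ε' := by positivity
  obtain ⟨q, hq, hfq⟩ := dense_span_ex f ε' hε'0
  obtain ⟨t1, t2⟩ := tendsto_span hq
  have t3 := tendsto_fejer f
  rw [Metric.tendsto_atTop] at t1 t2 t3
  obtain ⟨N1, hN1⟩ := t1 (ε / 8) (by positivity)
  obtain ⟨N2, hN2⟩ := t2 (ε / (8 * (X + 1))) (by positivity)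
  obtain ⟨N3, hN3⟩ := t3 (ε / 4) (by positivity)
  set M := N1 + N2 + N3 + x.natAbs + 2 with hM
  obtain ⟨m, hm, hmE⟩ := exists_scale (M := M) (by omega) (f - q)
  rw [Finset.mem_Ioc] at hm
  set N : ℕ := 2 ^ m with hNdef
  have hNm : m < N := Nat.lt_two_pow_self
  have hN : 1 ≤ N := by omega
  have hNx : x.natAbs < N := by omega
  have hN0 : (0:ℝ) < N := by exact_mod_cast hN
  have hE1 : ‖Eop N f‖ ≤ 73 * ε' + ε / 8 := by
    have h1 := hN1 N (by omega)
    rw [dist_zero_right] at h1
    have h2 : Eop N f = Eop N (f - q) + Eop N q := by rw [← Eop_add, sub_add_cancel]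
    rw [h2]
    refine (norm_add_le _ _).trans ?_
    have : 73 * ‖f - q‖ ≤ 73 * ε' := by gcongr
    linarith
  have hD1 : ‖Dsum N f N‖ ≤ 2 * ε' + ε / (8 * (X + 1)) := by
    have h1 := hN2 N (by omega)
    rw [dist_zero_right] at h1
    have h2 : Dsum N f N = Dsum N (f - q) N + Dsum N q N := by rw [← Dsum_add, sub_add_cancel]
    rw [h2]
    refine (norm_add_le _ _).trans ?_
    have h3 := norm_Dsum_le hN (f - q)
    have : 2 * ‖f - q‖ ≤ 2 * ε' := by gcongr
    linarith
  have hF1 : ‖fejer (N - 1) f - f‖ < ε / 4 := by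
    have h1 := hN3 (N - 1) (by omega)
    rwa [dist_eq_norm] at h1
  -- the polynomial
  set lam := Dsum N f N with hlam
  set F : ℤ → ℂ := fun k => coeff f k - coeff f (k - 1) with hF
  set A : ℤ → ℂ := fun n => ∑ k ∈ Finset.Icc (-(N : ℤ)) n, (psiN N k : ℂ) * F k with hA
  have hAlow : ∀ n, n < -(N : ℤ) → A n = 0 := by
    intro n hn
    simp only [hA]
    rw [Finset.Icc_eq_empty (by omega), Finset.sum_empty]
  have hAsucc : ∀ n, -(N : ℤ) ≤ n + 1 → A (n + 1) = A n + (psiN N (n + 1) : ℂ) * F (n + 1) := by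
    intro n hn
    simp only [hA]
    have h1 : Finset.Icc (-(N : ℤ)) (n + 1) = insert (n + 1) (Finset.Icc (-(N : ℤ)) n) := by
      ext k; simp only [Finset.mem_Icc, Finset.mem_insert]; omega
    rw [h1, Finset.sum_insert (by simp)]
    ring
  have hAD : ∀ n, -(N : ℤ) ≤ n → A n = (psiN N n : ℂ) * coeff f n + Dsum N f n := by
    intro n hn
    induction n, hn using Int.leInduction with
    | base =>
      have h1 : psiN N (-(N : ℤ)) = 0 := psiN_eq_zero hN (by rw [abs_neg]; exact le_abs_self _)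
      simp only [hA, Dsum, Finset.Icc_self, Finset.sum_singleton, Finset.Ico_self,
        Finset.sum_empty, h1]
      simp
    | succ n hn ih =>
      rw [hAsucc n (by omega), ih, Dsum_succ N f hn, kapN]
      simp only [hF]
      rw [add_sub_cancel_right]
      push_cast
      ring
  have hAhigh : ∀ n, (N : ℤ) ≤ n → A n = lam := by
    intro n hn
    induction n, hn using Int.leInduction with
    | base =>
      rw [hAD _ (by omega), psiN_eq_zero hN (le_abs_self _)]
      simp [hlam]
    | succ n hn ih =>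
      rw [hAsucc n (by omega), ih, psiN_eq_zero hN (by rw [abs_of_nonneg (by omega)]; omega)]
      simp
  set c0 : ℤ → ℂ := fun n => A n - if x ≤ n then lam else 0 with hc0
  have hsupp : ∀ n, c0 n ≠ 0 → n ∈ Finset.Ico (-(N : ℤ)) N := by
    intro n hn
    rw [Finset.mem_Ico]
    by_contra hcon
    apply hn
    simp only [hc0]
    by_cases h1 : n < -(N : ℤ)
    · rw [hAlow n h1, if_neg (by omega), sub_zero]
    · rw [hAhigh n (by omega), if_pos (by omega), sub_self]
  have hstep : ∀ n, r n (n + 1) → c0 (n + 1) = c0 n := by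
    intro n hn
    have hne : x ≠ n + 1 := by
      intro h1
      apply hx
      rw [h1, add_sub_cancel_right]
      exact hn
    have hF0 : F (n + 1) = 0 := by
      simp only [hF]
      rw [add_sub_cancel_right, sub_eq_zero]
      exact (hf1 n (n + 1) hn).symm
    have hAeq : A (n + 1) = A n := by
      by_cases h1 : -(N : ℤ) ≤ n + 1
      · rw [hAsucc n h1, hF0, mul_zero, add_zero]
      · rw [hAlow _ (by omega), hAlow _ (by omega)]
    simp only [hc0]
    rw [hAeq]
    congr 1
    by_cases h1 : x ≤ n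
    · rw [if_pos h1, if_pos (by omega)]
    · rw [if_neg h1, if_neg (by omega)]
  have hconst' : ∀ a b : ℤ, a ≤ b → r a b → c0 b = c0 a := by
    intro a b hab
    induction b, hab using Int.leInduction with
    | base => intro _; rfl
    | succ b hab ih =>
      intro hr
      have h1 : r a b := (h a).out (r.iseqv.refl a) hr ⟨hab, by omega⟩
      rw [hstep b (r.iseqv.trans (r.iseqv.symm h1) hr), ih h1]
  set c : ℤ →₀ ℂ := Finsupp.onFinset (Finset.Ico (-(N : ℤ)) N) c0 hsupp with hc
  have hcc : ∀ n, c n = c0 n := fun n => rfl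
  refine ⟨c, ?_, ?_⟩
  · intro a b hr
    rw [hcc, hcc]
    rcases le_total a b with hab | hab
    · exact (hconst' a b hab hr).symm
    · exact hconst' b a hab (r.iseqv.symm hr)
  · have hsum : (∑ n ∈ c.support, c n • (fourierLp 1 n : L1)) =
        ∑ n ∈ Finset.Ico (-(N : ℤ)) N, c0 n • ex n := by
      refine Finset.sum_subset ?_ ?_
      · intro n hn
        exact hsupp n (by rw [← hcc]; exact Finsupp.mem_support_iff.mp hn)
      · intro n _ hn
        rw [Finsupp.notMem_support_iff.mp hn, zero_smul]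
    rw [hsum]
    set R : L1 := ∑ n ∈ Finset.Ico (-(N : ℤ)) N,
      (((if 0 ≤ n then 1 else 0) - (if x ≤ n then 1 else 0) : ℂ)) • ex n with hR
    have hp : ∑ n ∈ Finset.Ico (-(N : ℤ)) N, c0 n • ex n =
        fejer (N - 1) f + Eop N f + lam • R := by
      apply ext_coeff
      intro n
      rw [coeff_add, coeff_add, coeff_fejer, coeff_smul, hR, coeff_sum, coeff_sum]
      simp only [coeff_smul, coeff_ex, mul_ite, mul_one, mul_zero, Finset.sum_ite_eq']
      have hcast : (((N - 1 : ℕ) : ℝ) + 1) = N := by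
        rw [Nat.cast_sub hN]; push_cast; ring
      rw [hcast]
      have hpsi : ((max 0 (1 - |(n : ℝ)| / N) : ℝ) : ℂ) = (psiN N n : ℂ) := rfl
      rw [hpsi]
      by_cases hn : n ∈ Finset.Ico (-(N : ℤ)) N
      · rw [if_pos hn, if_pos hn]
        rw [Finset.mem_Ico] at hn
        rw [coeff_Eop hN f hn.1 hn.2]
        simp only [hc0]
        rw [hAD n hn.1, ← hlam]
        split_ifs <;> ring
      · rw [if_neg hn, if_neg hn]
        rw [Finset.mem_Ico] at hn
        rw [coeff_Eop_zero f (by omega), psiN_eq_zero hN (by rw [le_abs]; omega)]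
        simp
    have hRn : ‖R‖ ≤ X := by
      rw [hR]
      refine (norm_sum_le _ _).trans ?_
      have h1 : ∀ n ∈ Finset.Ico (-(N : ℤ)) N,
          ‖(((if 0 ≤ n then 1 else 0) - (if x ≤ n then 1 else 0) : ℂ)) • ex n‖ =
          if (0 ≤ n ∧ n < x) ∨ (x ≤ n ∧ n < 0) then 1 else 0 := by
        intro n _
        rw [norm_smul, norm_ex, mul_one]
        by_cases c1 : 0 ≤ n
        · by_cases c2 : x ≤ n
          · rw [if_pos c1, if_pos c2, if_neg (by omega)]; simp
          · rw [if_pos c1, if_neg c2, if_pos (by omega)]; simp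
        · by_cases c2 : x ≤ n
          · rw [if_neg c1, if_pos c2, if_pos (by omega)]; simp
          · rw [if_neg c1, if_neg c2, if_neg (by omega)]; simp
      rw [Finset.sum_congr rfl h1, Finset.sum_boole, hX]
      have h2 : ((Finset.Ico (-(N : ℤ)) N).filter
          (fun n => (0 ≤ n ∧ n < x) ∨ (x ≤ n ∧ n < 0))).card ≤ x.natAbs := by
        rcases le_or_gt 0 x with hx0 | hx0
        · have : ((Finset.Ico (-(N : ℤ)) N).filter
              (fun n => (0 ≤ n ∧ n < x) ∨ (x ≤ n ∧ n < 0))) ⊆ Finset.Ico 0 x := by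
            intro n hn
            simp only [Finset.mem_filter, Finset.mem_Ico] at hn ⊢
            omega
          refine (Finset.card_le_card this).trans ?_
          rw [Int.card_Ico]; omega
        · have : ((Finset.Ico (-(N : ℤ)) N).filter
              (fun n => (0 ≤ n ∧ n < x) ∨ (x ≤ n ∧ n < 0))) ⊆ Finset.Ico x 0 := by
            intro n hn
            simp only [Finset.mem_filter, Finset.mem_Ico] at hn ⊢
            omega
          refine (Finset.card_le_card this).trans ?_
          rw [Int.card_Ico]; omega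
      exact_mod_cast h2
    rw [hp]
    have e : f - (fejer (N - 1) f + Eop N f + lam • R) =
        -(fejer (N - 1) f - f) - Eop N f - lam • R := by abel
    rw [e]
    have hlamR : ‖lam • R‖ ≤ (2 * ε' + ε / (8 * (X + 1))) * X := by
      rw [norm_smul]
      have : 0 ≤ 2 * ε' + ε / (8 * (X + 1)) := by positivity
      gcongr
    have h3 : ‖-(fejer (N - 1) f - f) - Eop N f - lam • R‖ ≤
        ‖fejer (N - 1) f - f‖ + ‖Eop N f‖ + ‖lam • R‖ := by
      refine (norm_sub_le _ _).trans ?_
      gcongr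
      refine (norm_sub_le _ _).trans ?_
      rw [norm_neg]
    have h4 : ε / (8 * (X + 1)) * X ≤ ε / 8 := by
      rw [div_mul_eq_mul_div, div_le_div_iff₀ (by positivity) (by norm_num)]
      nlinarith
    have h5 : (73 + 2 * X) * ε' = ε / 4 := by
      rw [hε']; field_simp
    have h6 : (2 * ε' + ε / (8 * (X + 1))) * X = 2 * X * ε' + ε / (8 * (X + 1)) * X := by ring
    rw [h6] at hlamR
    have h7 : (73 + 2 * X) * ε' = 73 * ε' + 2 * X * ε' := by ring
    rw [h7] at h5
    linarith

end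

end Pool.Agent.H23.Synth
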