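import Pool.Agent.H23.Synth.Leb

/-!
The error operator of the interval theorem (B) of the project of helper87 on MP_de9001_an and its
`L¹` bound.
-/

set_option autoImplicit false

open MeasureTheory AddCircle Filter Topology

namespace Pool.Agent.H23.Synth

open Pool.Agent.H87.Synth

noncomputable section

/-- A block of exponentials between `0` and `k`. -/
def Bk (k : ℤ) : L1 := ∑ n ∈ Finset.Ico 0 (k + 1), ex n + ∑ n ∈ Finset.Ico (k + 1) 0, ex n

lemma log_bound_pos {N : ℕ} (hN : 1 ≤ N) : 0 < 1 + Real.log N := by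
  have : 0 ≤ Real.log (N : ℝ) := Real.log_nonneg (by exact_mod_cast hN)
  linarith

lemma norm_block_le' {N : ℕ} (hN : 1 ≤ N) (a b : ℤ) (h : b - a ≤ N) (y : Circ) :
    ‖(∑ k ∈ Finset.Ico a b, (fourier (-k) y : ℂ) • ex k : L1)‖ ≤ 1 + Real.log N := by
  rcases le_or_gt b a with hab | hab
  · rw [Finset.Ico_eq_empty (by omega), Finset.sum_empty, norm_zero]
    exact (log_bound_pos hN).le
  · have e : b = a + ((b - a).toNat : ℤ) := by omega
    rw [e]
    exact norm_block_le hN a _ (by omega) y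

lemma norm_block_le'' {N : ℕ} (hN : 1 ≤ N) (a b : ℤ) (h : b - a ≤ N) :
    ‖(∑ k ∈ Finset.Ico a b, ex k : L1)‖ ≤ 1 + Real.log N := by
  have := norm_block_le' hN a b h 0
  simpa only [fourier_eval_zero, one_smul] using this

lemma norm_Bk_le {N : ℕ} (hN : 1 ≤ N) {k : ℤ} (h1 : -(N : ℤ) ≤ k) (h2 : k < N) :
    ‖Bk k‖ ≤ 1 + Real.log N := by
  unfold Bk
  rcases le_or_gt 0 k with hk | hk
  · rw [Finset.Ico_eq_empty (by omega : ¬ k + 1 < 0), Finset.sum_empty, add_zero]
    exact norm_block_le'' hN _ _ (by omega)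
  · rw [Finset.Ico_eq_empty (by omega : ¬ 0 < k + 1), Finset.sum_empty, zero_add]
    exact norm_block_le'' hN _ _ (by omega)

/-- The kernel of the error operator. -/
def Tk (N : ℕ) (y : Circ) : L1 :=
  (-(1 / (N : ℂ))) • ∑ k ∈ Finset.Ico (-(N : ℤ)) N, (fourier (-k) y : ℂ) • Bk k

/-- The error operator. -/
def Eop (N : ℕ) (f : L1) : L1 :=
  (-(1 / (N : ℂ))) • ∑ k ∈ Finset.Ico (-(N : ℤ)) N, coeff f k • Bk k

lemma coeff_Bk (k n : ℤ) : coeff (Bk k) n =
    if (0 ≤ n ∧ n ≤ k) ∨ (k < n ∧ n < 0) then 1 else 0 := by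
  rw [Bk, coeff_add, coeff_sum, coeff_sum]
  simp only [coeff_ex, Finset.sum_ite_eq', Finset.mem_Ico]
  by_cases h1 : 0 ≤ n
  · rw [if_neg (by omega : ¬ (k + 1 ≤ n ∧ n < 0)), add_zero]
    by_cases h2 : n ≤ k
    · rw [if_pos (by omega), if_pos (by omega)]
    · rw [if_neg (by omega), if_neg (by omega)]
  · rw [if_neg (by omega : ¬ (0 ≤ n ∧ n < k + 1)), zero_add]
    by_cases h2 : k < n
    · rw [if_pos (by omega), if_pos (by omega)]
    · rw [if_neg (by omega), if_neg (by omega)]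

lemma Tk_zero {N : ℕ} (hN : 1 ≤ N) {y : Circ} (hy : ∀ k : ℤ, (fourier (-k) y : ℂ) = 1) :
    Tk N y = -fejerK (N - 1) := by
  apply ext_coeff
  intro n
  have hneg : coeff (-fejerK (N - 1)) n = -coeff (fejerK (N - 1)) n := by
    rw [← neg_one_smul ℂ, coeff_smul]; ring
  rw [hneg, coeff_fejerK, Tk, coeff_smul, coeff_sum]
  simp only [hy, one_smul, coeff_Bk]
  rw [Finset.sum_boole]
  have hcard : ((Finset.Ico (-(N : ℤ)) N).filter
      (fun k => (0 ≤ n ∧ n ≤ k) ∨ (k < n ∧ n < 0))).card = N - n.natAbs := by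
    rcases le_or_gt 0 n with h0 | h0
    · have : (Finset.Ico (-(N : ℤ)) N).filter
          (fun k => (0 ≤ n ∧ n ≤ k) ∨ (k < n ∧ n < 0)) = Finset.Ico n N := by
        ext k; simp only [Finset.mem_filter, Finset.mem_Ico]; omega
      rw [this, Int.card_Ico]; omega
    · have : (Finset.Ico (-(N : ℤ)) N).filter
          (fun k => (0 ≤ n ∧ n ≤ k) ∨ (k < n ∧ n < 0)) = Finset.Ico (-(N : ℤ)) n := by
        ext k; simp only [Finset.mem_filter, Finset.mem_Ico]; omega
      rw [this, Int.card_Ico]; omega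
  rw [hcard]
  have hN0 : (N : ℝ) ≠ 0 := by positivity
  have hN0' : (N : ℂ) ≠ 0 := by exact_mod_cast hN0
  have hcast : (((N - 1 : ℕ) : ℝ) + 1) = N := by
    rw [Nat.cast_sub hN]; push_cast; ring
  rw [hcast]
  have habs : |(n : ℝ)| = (n.natAbs : ℝ) := by rw [Nat.cast_natAbs, Int.cast_abs]
  rw [habs]
  rcases le_or_gt n.natAbs N with h | h
  · have h' : (n.natAbs : ℝ) ≤ N := by exact_mod_cast h
    rw [max_eq_right (by rw [sub_nonneg, div_le_one (by positivity)]; exact h'),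
      Nat.cast_sub h]
    push_cast
    field_simp
  · have h' : (N : ℝ) ≤ n.natAbs := by exact_mod_cast h.le
    rw [max_eq_left (by rw [sub_nonpos, one_le_div (by positivity)]; exact h'),
      Nat.sub_eq_zero_of_le h.le]
    simp

/-- The estimate near `0`. -/
lemma norm_Tk_le_near {N : ℕ} (hN : 1 ≤ N) (y : Circ) :
    ‖Tk N y‖ ≤ 1 + 2 * (1 + Real.log N) * (N * rho y) := by
  have hN0 : (0:ℝ) < N := by exact_mod_cast hN
  have hΛ := log_bound_pos hN
  have h0 : Tk N 0 = -fejerK (N - 1) := Tk_zero hN fun k => fourier_eval_zero _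
  have hn0 : ‖Tk N 0‖ = 1 := by rw [h0, norm_neg, norm_fejerK]
  have hdiff : Tk N y - Tk N 0 =
      (-(1 / (N : ℂ))) • ∑ k ∈ Finset.Ico (-(N : ℤ)) N, ((fourier (-k) y : ℂ) - 1) • Bk k := by
    simp only [Tk, fourier_eval_zero, one_smul]
    rw [← smul_sub, ← Finset.sum_sub_distrib]
    congr 1
    refine Finset.sum_congr rfl fun k _ => ?_
    rw [sub_smul, one_smul]
  have hd : ‖Tk N y - Tk N 0‖ ≤ 2 * (1 + Real.log N) * (N * rho y) := by
    rw [hdiff, norm_smul]
    have h1 : ‖(-(1 / (N : ℂ)))‖ = 1 / N := by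
      rw [norm_neg, norm_div, norm_one, Complex.norm_natCast]
    rw [h1]
    have h2 : ‖∑ k ∈ Finset.Ico (-(N : ℤ)) N, ((fourier (-k) y : ℂ) - 1) • Bk k‖ ≤
        ∑ k ∈ Finset.Ico (-(N : ℤ)) N, (N * rho y) * (1 + Real.log N) := by
      refine (norm_sum_le _ _).trans (Finset.sum_le_sum fun k hk => ?_)
      rw [Finset.mem_Ico] at hk
      rw [norm_smul]
      have h3 := norm_fourier_sub_one_le (-k) y
      have h4 : |((-k : ℤ) : ℝ)| ≤ N := by
        push_cast
        rw [abs_neg, abs_le]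
        constructor
        · exact_mod_cast hk.1
        · exact_mod_cast hk.2.le
      have h5 := rho_nonneg y
      have h6 := norm_Bk_le hN hk.1 hk.2
      have h7 : ‖(fourier (-k) y : ℂ) - 1‖ ≤ N * rho y := h3.trans (by gcongr)
      gcongr
    rw [Finset.sum_const, Int.card_Ico, nsmul_eq_mul] at h2
    have h3 : (((N : ℤ) - -(N : ℤ)).toNat : ℝ) = 2 * N := by
      have : ((N : ℤ) - -(N : ℤ)).toNat = 2 * N := by omega
      rw [this]; push_cast; ring
    rw [h3] at h2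
    calc 1 / (N : ℝ) * ‖∑ k ∈ Finset.Ico (-(N : ℤ)) N, ((fourier (-k) y : ℂ) - 1) • Bk k‖
        ≤ 1 / (N : ℝ) * (2 * N * ((N * rho y) * (1 + Real.log N))) := by gcongr
      _ = _ := by field_simp
  calc ‖Tk N y‖ = ‖Tk N 0 + (Tk N y - Tk N 0)‖ := by congr 1; abel
    _ ≤ ‖Tk N 0‖ + ‖Tk N y - Tk N 0‖ := norm_add_le _ _
    _ ≤ _ := by rw [hn0]; linarith

lemma fourier_neg_succ (n : ℤ) (y : Circ) :
    (fourier (-(n + 1)) y : ℂ) = fourier (-n) y * fourier (-1) y := by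
  rw [← fourier_add]; congr 2; ring

lemma splus (y : Circ) (N : ℕ) :
    (1 - (fourier (-1) y : ℂ)) • ∑ k ∈ Finset.Ico (0 : ℤ) N, (fourier (-k) y : ℂ) •
      (∑ n ∈ Finset.Ico 0 (k + 1), ex n) =
    ∑ n ∈ Finset.Ico (0 : ℤ) N, (fourier (-n) y : ℂ) • ex n -
      (fourier (-(N : ℤ)) y : ℂ) • ∑ n ∈ Finset.Ico (0 : ℤ) N, ex n := by
  induction N with
  | zero => simp
  | succ N ih =>
    have h1 : Finset.Ico (0 : ℤ) (N + 1 : ℕ) = insert (N : ℤ) (Finset.Ico (0 : ℤ) N) := by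
      ext k; simp only [Finset.mem_Ico, Finset.mem_insert]; push_cast; omega
    have h2 : (N : ℤ) ∉ Finset.Ico (0 : ℤ) N := by simp
    have h3 : Finset.Ico (0 : ℤ) ((N : ℤ) + 1) = insert (N : ℤ) (Finset.Ico (0 : ℤ) N) := by
      rw [← h1]; push_cast; rfl
    rw [h1, Finset.sum_insert h2, Finset.sum_insert h2, Finset.sum_insert h2, smul_add, ih, h3,
      Finset.sum_insert h2]
    have h4 : (fourier (-((N + 1 : ℕ) : ℤ)) y : ℂ) = fourier (-(N : ℤ)) y * fourier (-1) y := by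
      rw [← fourier_neg_succ]; push_cast; rfl
    rw [h4, smul_smul]
    module

lemma sminus (y : Circ) (N : ℕ) :
    (1 - (fourier (-1) y : ℂ)) • ∑ k ∈ Finset.Ico (-(N : ℤ)) 0, (fourier (-k) y : ℂ) •
      (∑ n ∈ Finset.Ico (k + 1) 0, ex n) =
    (fourier (N : ℤ) y : ℂ) • ∑ n ∈ Finset.Ico (-(N : ℤ) + 1) 0, ex n -
      ∑ n ∈ Finset.Ico (-(N : ℤ) + 1) 0, (fourier (-n) y : ℂ) • ex n := by
  induction N with
  | zero => simp
  | succ N ih =>
    have h1 : Finset.Ico (-((N + 1 : ℕ) : ℤ)) 0 =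
        insert (-(N : ℤ) - 1) (Finset.Ico (-(N : ℤ)) 0) := by
      ext k; simp only [Finset.mem_Ico, Finset.mem_insert]; push_cast; omega
    have h2 : -(N : ℤ) - 1 ∉ Finset.Ico (-(N : ℤ)) 0 := by simp
    have h3 : -(N : ℤ) - 1 + 1 = -(N : ℤ) := by ring
    have h3' : -((N + 1 : ℕ) : ℤ) + 1 = -(N : ℤ) := by push_cast; ring
    have h4 : (fourier (-(-(N : ℤ) - 1)) y : ℂ) = fourier ((N + 1 : ℕ) : ℤ) y := by
      congr 2; push_cast; ring
    have h5 : (fourier (N : ℤ) y : ℂ) = fourier ((N + 1 : ℕ) : ℤ) y * fourier (-1) y := by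
      rw [← fourier_add]; congr 2; push_cast; ring
    rw [h1, Finset.sum_insert h2, smul_add, ih, h3, h3', h4]
    rcases Nat.eq_zero_or_pos N with rfl | hN
    · simp
    · have h6 : Finset.Ico (-(N : ℤ)) 0 = insert (-(N : ℤ)) (Finset.Ico (-(N : ℤ) + 1) 0) := by
        ext k; simp only [Finset.mem_Ico, Finset.mem_insert]; omega
      have h7 : -(N : ℤ) ∉ Finset.Ico (-(N : ℤ) + 1) 0 := by simp
      rw [h6, Finset.sum_insert h7, Finset.sum_insert h7, neg_neg, h5]
      module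

/-- The estimate away from `0`. -/
lemma norm_Tk_le_far {N : ℕ} (hN : 1 ≤ N) (y : Circ) (hy : 0 < rho y) :
    ‖Tk N y‖ ≤ 4 * (1 + Real.log N) / (N * rho y) := by
  have hN0 : (0:ℝ) < N := by exact_mod_cast hN
  have hΛ := log_bound_pos hN
  set u : ℂ := 1 - (fourier (-1) y : ℂ) with hu
  have hun : ‖u‖ = rho y := by
    rw [hu, rho, fourier_neg, norm_sub_rev, ← map_one (starRingEnd ℂ), ← map_sub,
      RCLike.norm_conj, map_one]
  have hsplit : ∑ k ∈ Finset.Ico (-(N : ℤ)) N, (fourier (-k) y : ℂ) • Bk k =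
      ∑ k ∈ Finset.Ico (-(N : ℤ)) 0, (fourier (-k) y : ℂ) • (∑ n ∈ Finset.Ico (k + 1) 0, ex n) +
      ∑ k ∈ Finset.Ico (0 : ℤ) N, (fourier (-k) y : ℂ) • (∑ n ∈ Finset.Ico 0 (k + 1), ex n) := by
    have h1 : Finset.Ico (-(N : ℤ)) N = Finset.Ico (-(N : ℤ)) 0 ∪ Finset.Ico (0 : ℤ) N := by
      ext k; simp only [Finset.mem_Ico, Finset.mem_union]; omega
    have h2 : Disjoint (Finset.Ico (-(N : ℤ)) 0) (Finset.Ico (0 : ℤ) N) := by
      rw [Finset.disjoint_left]
      intro k hk hk'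
      rw [Finset.mem_Ico] at hk hk'
      omega
    rw [h1, Finset.sum_union h2]
    congr 1
    · refine Finset.sum_congr rfl fun k hk => ?_
      rw [Finset.mem_Ico] at hk
      rw [Bk, Finset.Ico_eq_empty (by omega : ¬ 0 < k + 1), Finset.sum_empty, zero_add]
    · refine Finset.sum_congr rfl fun k hk => ?_
      rw [Finset.mem_Ico] at hk
      rw [Bk, Finset.Ico_eq_empty (by omega : ¬ k + 1 < 0), Finset.sum_empty, add_zero]
  have hfn : ∀ (m : ℤ) (z : L1), ‖(fourier m y : ℂ) • z‖ = ‖z‖ := by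
    intro m z
    rw [norm_smul, fourier_norm_apply, one_mul]
  have hkey : ‖u • ∑ k ∈ Finset.Ico (-(N : ℤ)) N, (fourier (-k) y : ℂ) • Bk k‖ ≤
      4 * (1 + Real.log N) := by
    rw [hsplit, smul_add, sminus, splus]
    have b1 : ‖(fourier (N : ℤ) y : ℂ) • ∑ n ∈ Finset.Ico (-(N : ℤ) + 1) 0, ex n‖ ≤
        1 + Real.log N := by
      rw [hfn]; exact norm_block_le'' hN _ _ (by omega)
    have b2 : ‖∑ n ∈ Finset.Ico (-(N : ℤ) + 1) 0, (fourier (-n) y : ℂ) • ex n‖ ≤
        1 + Real.log N := norm_block_le' hN _ _ (by omega) y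
    have b3 : ‖∑ n ∈ Finset.Ico (0 : ℤ) N, (fourier (-n) y : ℂ) • ex n‖ ≤
        1 + Real.log N := norm_block_le' hN _ _ (by omega) y
    have b4 : ‖(fourier (-(N : ℤ)) y : ℂ) • ∑ n ∈ Finset.Ico (0 : ℤ) N, ex n‖ ≤
        1 + Real.log N := by
      rw [hfn]; exact norm_block_le'' hN _ _ (by omega)
    refine (norm_add_le _ _).trans ?_
    have c1 := norm_sub_le ((fourier (N : ℤ) y : ℂ) • ∑ n ∈ Finset.Ico (-(N : ℤ) + 1) 0, ex n)
      (∑ n ∈ Finset.Ico (-(N : ℤ) + 1) 0, (fourier (-n) y : ℂ) • ex n)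
    have c2 := norm_sub_le (∑ n ∈ Finset.Ico (0 : ℤ) N, (fourier (-n) y : ℂ) • ex n)
      ((fourier (-(N : ℤ)) y : ℂ) • ∑ n ∈ Finset.Ico (0 : ℤ) N, ex n)
    linarith
  rw [norm_smul, hun] at hkey
  rw [Tk, norm_smul, norm_neg, norm_div, norm_one, Complex.norm_natCast, le_div_iff₀ (by positivity)]
  calc 1 / (N : ℝ) * ‖∑ k ∈ Finset.Ico (-(N : ℤ)) N, (fourier (-k) y : ℂ) • Bk k‖ * (N * rho y)
      = rho y * ‖∑ k ∈ Finset.Ico (-(N : ℤ)) N, (fourier (-k) y : ℂ) • Bk k‖ := by field_simp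
    _ ≤ _ := hkey

/-- Potential for the sum over the dyadic scales. -/
lemma sum_min_le (x : ℝ) (hx : 0 < x) (K : ℕ) :
    ∑ m ∈ Finset.range K, min (2 ^ m * x) (1 / (2 ^ m * x)) ≤
      6 * (2 ^ K * x / (1 + 2 ^ K * x)) := by
  induction K with
  | zero => simp; positivity
  | succ K ih =>
    rw [Finset.sum_range_succ]
    set a := 2 ^ K * x with ha
    have ha0 : 0 < a := by positivity
    have h2 : (2:ℝ) ^ (K + 1) * x = 2 * a := by rw [ha, pow_succ]; ring
    rw [h2]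
    have key : min a (1 / a) ≤ 6 * (2 * a / (1 + 2 * a)) - 6 * (a / (1 + a)) := by
      have e : 6 * (2 * a / (1 + 2 * a)) - 6 * (a / (1 + a)) =
          6 * a / ((1 + 2 * a) * (1 + a)) := by
        field_simp
        ring
      rw [e]
      rcases le_or_gt a 1 with h | h
      · refine (min_le_left _ _).trans ?_
        rw [le_div_iff₀ (by positivity)]
        have h3 : (1 + 2 * a) * (1 + a) ≤ 6 := by nlinarith
        nlinarith
      · refine (min_le_right _ _).trans ?_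
        rw [div_le_div_iff₀ ha0 (by positivity)]
        nlinarith
    linarith

lemma sum_min_le' (x : ℝ) (hx : 0 ≤ x) (M : ℕ) :
    ∑ m ∈ Finset.Ioc M (2 * M), min (2 ^ m * x) (1 / (2 ^ m * x)) ≤ 6 := by
  rcases hx.eq_or_lt with rfl | hx
  · simp
  · calc ∑ m ∈ Finset.Ioc M (2 * M), min (2 ^ m * x) (1 / (2 ^ m * x))
        ≤ ∑ m ∈ Finset.range (2 * M + 1), min (2 ^ m * x) (1 / (2 ^ m * x)) := by
          apply Finset.sum_le_sum_of_subset_of_nonneg
          · intro m hm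
            rw [Finset.mem_Ioc] at hm
            rw [Finset.mem_range]
            omega
          · intro m _ _
            positivity
      _ ≤ 6 * (2 ^ (2 * M + 1) * x / (1 + 2 ^ (2 * M + 1) * x)) := sum_min_le x hx _
      _ ≤ 6 * 1 := by
          gcongr
          rw [div_le_one (by positivity)]
          linarith
      _ = 6 := by norm_num

lemma norm_Tk_le {N : ℕ} (hN : 1 ≤ N) (y : Circ) :
    ‖Tk N y‖ ≤ 1 + 4 * (1 + Real.log N) * min (N * rho y) (1 / (N * rho y)) := by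
  have hN0 : (0:ℝ) < N := by exact_mod_cast hN
  have hΛ := log_bound_pos hN
  have hρ := rho_nonneg y
  rcases le_total (N * rho y) (1 / (N * rho y)) with h | h
  · rw [min_eq_left h]
    have := norm_Tk_le_near hN y
    have h1 : 0 ≤ (1 + Real.log N) * (N * rho y) := by positivity
    linarith
  · rw [min_eq_right h]
    rcases hρ.eq_or_lt with h0 | h0
    · have := norm_Tk_le_near hN y
      rw [← h0] at this ⊢
      simp at this ⊢
      exact this
    · have := norm_Tk_le_far hN y h0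
      have e : 4 * (1 + Real.log N) / (N * rho y) =
          4 * (1 + Real.log N) * (1 / (N * rho y)) := by ring
      rw [e] at this
      linarith

lemma sum_norm_Tk_le {M : ℕ} (hM : 1 ≤ M) (y : Circ) :
    ∑ m ∈ Finset.Ioc M (2 * M), ‖Tk (2 ^ m) y‖ ≤ 73 * M := by
  have hM1 : (1:ℝ) ≤ M := by exact_mod_cast hM
  have hρ := rho_nonneg y
  have h1 : ∀ m ∈ Finset.Ioc M (2 * M), ‖Tk (2 ^ m) y‖ ≤
      1 + 12 * M * min (2 ^ m * rho y) (1 / (2 ^ m * rho y)) := by
    intro m hm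
    rw [Finset.mem_Ioc] at hm
    have h2 := norm_Tk_le (N := 2 ^ m) (Nat.one_le_two_pow) y
    have h3 : Real.log ((2 ^ m : ℕ) : ℝ) ≤ 2 * M := by
      push_cast
      rw [Real.log_pow]
      have h4 := Real.log_two_lt_d9
      have h5 : (m : ℝ) ≤ 2 * M := by exact_mod_cast hm.2
      have h6 := Real.log_two_gt_d9
      calc (m : ℝ) * Real.log 2 ≤ (2 * M) * 1 := by
            apply mul_le_mul h5 (by linarith) (by linarith) (by positivity)
        _ = _ := by ring
    push_cast at h2 h3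
    refine h2.trans ?_
    have h7 : 4 * (1 + Real.log (2 ^ m)) ≤ 12 * M := by linarith
    have h8 : 0 ≤ min ((2:ℝ) ^ m * rho y) (1 / (2 ^ m * rho y)) := by positivity
    gcongr
  refine (Finset.sum_le_sum h1).trans ?_
  rw [Finset.sum_add_distrib, Finset.sum_const, Nat.card_Ioc, ← Finset.mul_sum]
  have h2 := sum_min_le' (rho y) hρ M
  have h3 : ((2 * M - M : ℕ) : ℝ) = M := by
    have : 2 * M - M = M := by omega
    rw [this]
  rw [nsmul_eq_mul, h3, mul_one]
  have h4 : 12 * (M : ℝ) * ∑ m ∈ Finset.Ioc M (2 * M), min (2 ^ m * rho y) (1 / (2 ^ m * rho y)) ≤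
      12 * M * 6 := by gcongr
  linarith

/-! ### The operator as an average of its kernel -/

lemma continuous_Tk (N : ℕ) : Continuous (Tk N) := by
  have h : Continuous fun y : Circ => ∑ k ∈ Finset.Ico (-(N : ℤ)) N,
      (fourier (-k) y : ℂ) • Bk k := by
    refine continuous_finsetSum _ fun k _ => ?_
    exact ((fourier (T := 2 * Real.pi) (-k)).continuous).smul continuous_const
  exact h.const_smul (-(1 / (N : ℂ)))

lemma Eop_eq_integral (N : ℕ) (f : L1) :
    Eop N f = ∫ y, (f : Circ → ℂ) y • Tk N y ∂haarAddCircle := by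
  have hint : ∀ k : ℤ, Integrable (fun y => ((fourier (-k) y : ℂ) * (f : Circ → ℂ) y) • Bk k)
      haarAddCircle := by
    intro k
    have h1 : Integrable (fun y => (fourier (-k) y : ℂ) * (f : Circ → ℂ) y) haarAddCircle := by
      simpa [smul_eq_mul] using (integrable_coe f).fourier_smul (-k)
    exact h1.smul_const _
  have h1 : ∀ y, (f : Circ → ℂ) y • Tk N y = (-(1 / (N : ℂ))) •
      ∑ k ∈ Finset.Ico (-(N : ℤ)) N, ((fourier (-k) y : ℂ) * (f : Circ → ℂ) y) • Bk k := by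
    intro y
    rw [Tk, smul_comm, Finset.smul_sum]
    congr 1
    refine Finset.sum_congr rfl fun k _ => ?_
    rw [smul_smul, mul_comm ((f : Circ → ℂ) y)]
  simp only [h1]
  rw [integral_smul, integral_finsetSum _ fun k _ => hint k, Eop]
  congr 1
  refine Finset.sum_congr rfl fun k _ => ?_
  rw [integral_smul_const, coeff_def]

lemma norm_Eop_le (N : ℕ) (f : L1) :
    ‖Eop N f‖ ≤ ∫ y, ‖(f : Circ → ℂ) y‖ * ‖Tk N y‖ ∂haarAddCircle := by
  rw [Eop_eq_integral]
  refine (norm_integral_le_integral_norm _).trans (le_of_eq ?_)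
  congr 1
  funext y
  rw [norm_smul]

/-- For every `f` there is a good scale in every range. -/
theorem exists_scale {M : ℕ} (hM : 1 ≤ M) (f : L1) :
    ∃ m ∈ Finset.Ioc M (2 * M), ‖Eop (2 ^ m) f‖ ≤ 73 * ‖f‖ := by
  have hM1 : (0:ℝ) < M := by exact_mod_cast hM
  have hint : ∀ N : ℕ, Integrable (fun y => ‖(f : Circ → ℂ) y‖ * ‖Tk N y‖) haarAddCircle := by
    intro N
    have hc : Continuous fun y => ‖Tk N y‖ := (continuous_Tk N).norm
    obtain ⟨C, hC⟩ := (isCompact_univ.bddAbove_image hc.continuousOn)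
    refine (integrable_coe f).norm.mul_bdd (c := C) hc.aestronglyMeasurable
      (Eventually.of_forall fun y => ?_)
    rw [norm_norm]
    exact hC ⟨y, Set.mem_univ y, rfl⟩
  have hsum : ∑ m ∈ Finset.Ioc M (2 * M), ‖Eop (2 ^ m) f‖ ≤
      ∑ m ∈ Finset.Ioc M (2 * M), 73 * ‖f‖ := by
    calc ∑ m ∈ Finset.Ioc M (2 * M), ‖Eop (2 ^ m) f‖
        ≤ ∑ m ∈ Finset.Ioc M (2 * M),
          ∫ y, ‖(f : Circ → ℂ) y‖ * ‖Tk (2 ^ m) y‖ ∂haarAddCircle :=
          Finset.sum_le_sum fun m _ => norm_Eop_le _ f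
      _ = ∫ y, ∑ m ∈ Finset.Ioc M (2 * M), ‖(f : Circ → ℂ) y‖ * ‖Tk (2 ^ m) y‖
            ∂haarAddCircle := (integral_finsetSum _ fun m _ => hint _).symm
      _ ≤ ∫ y, ‖(f : Circ → ℂ) y‖ * (73 * M) ∂haarAddCircle := by
          refine integral_mono (integrable_finsetSum _ fun m _ => hint _)
            ((integrable_coe f).norm.mul_const _) fun y => ?_
          simp only
          rw [← Finset.mul_sum]
          exact mul_le_mul_of_nonneg_left (sum_norm_Tk_le hM y) (norm_nonneg _)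
      _ = (73 * M) * ‖f‖ := by rw [integral_mul_const, ← Pool.Agent.H87.Synth.norm_eq]; ring
      _ = _ := by
          rw [Finset.sum_const, Nat.card_Ioc, nsmul_eq_mul]
          have : 2 * M - M = M := by omega
          rw [this]; ring
  have hne : (Finset.Ioc M (2 * M)).Nonempty := ⟨2 * M, by rw [Finset.mem_Ioc]; omega⟩
  exact Finset.exists_le_of_sum_le hne hsum

end

end Pool.Agent.H23.Synth
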