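import Pool.Agent.H23.Synth.Basic

/-!
Dirichlet blocks: geometric sums and their `L¹` norms (Lebesgue constants).
-/

set_option autoImplicit false

open MeasureTheory AddCircle Filter Topology

namespace Pool.Agent.H23.Synth

open Pool.Agent.H87.Synth

noncomputable section

/-- The distance of `e^{ix}` to `1`. -/
def rho (x : Circ) : ℝ := ‖(fourier 1 x : ℂ) - 1‖

lemma rho_nonneg (x : Circ) : 0 ≤ rho x := norm_nonneg _

lemma fourier_eq_zpow (n : ℤ) (x : Circ) : (fourier n x : ℂ) = (fourier 1 x : ℂ) ^ n := by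
  rw [fourier_apply, fourier_one, toCircle_zsmul]
  push_cast
  rfl

lemma norm_pow_sub_one_le {u : ℂ} (hu : ‖u‖ = 1) (k : ℕ) : ‖u ^ k - 1‖ ≤ k * ‖u - 1‖ := by
  induction k with
  | zero => simp
  | succ k ih =>
    have : u ^ (k + 1) - 1 = u * (u ^ k - 1) + (u - 1) := by ring
    rw [this]
    refine (norm_add_le _ _).trans ?_
    rw [norm_mul, hu, one_mul]
    push_cast
    linarith

lemma norm_fourier_sub_one_le (k : ℤ) (x : Circ) :
    ‖(fourier k x : ℂ) - 1‖ ≤ |(k : ℝ)| * rho x := by
  have hu : ‖(fourier 1 x : ℂ)‖ = 1 := fourier_norm_apply 1 x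
  obtain ⟨n, rfl | rfl⟩ := Int.eq_nat_or_neg k
  · rw [fourier_eq_zpow, zpow_natCast]
    have := norm_pow_sub_one_le hu n
    simpa [rho] using this
  · rw [fourier_neg, ← map_one (starRingEnd ℂ), ← map_sub, RCLike.norm_conj, fourier_eq_zpow,
      zpow_natCast]
    have := norm_pow_sub_one_le hu n
    simpa [rho] using this

/-- Geometric sums. -/
lemma sum_fourier_mul (a : ℤ) (n : ℕ) (x : Circ) :
    (∑ k ∈ Finset.Ico a (a + n), (fourier k x : ℂ)) * ((fourier 1 x : ℂ) - 1) =
      fourier (a + n) x - fourier a x := by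
  induction n with
  | zero => simp
  | succ n ih =>
    have h1 : Finset.Ico a (a + (n + 1 : ℕ)) = insert (a + n) (Finset.Ico a (a + n)) := by
      ext k; simp only [Finset.mem_Ico, Finset.mem_insert]; push_cast; omega
    rw [h1, Finset.sum_insert (by simp), add_mul, ih]
    have h2 : (fourier (a + (n + 1 : ℕ)) x : ℂ) = fourier (a + n) x * fourier 1 x := by
      rw [← fourier_add]; congr 2; push_cast; ring
    rw [h2]
    ring

lemma norm_sum_fourier_le (a : ℤ) (n : ℕ) (x : Circ) :
    ‖∑ k ∈ Finset.Ico a (a + n), (fourier k x : ℂ)‖ ≤ n := by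
  refine (norm_sum_le _ _).trans ?_
  simp only [fourier_norm_apply, Finset.sum_const, Int.card_Ico, nsmul_eq_mul, mul_one]
  rw [add_sub_cancel_left, Int.toNat_natCast]

lemma norm_sum_fourier_mul_le (a : ℤ) (n : ℕ) (x : Circ) :
    ‖∑ k ∈ Finset.Ico a (a + n), (fourier k x : ℂ)‖ * rho x ≤ 2 := by
  rw [rho, ← norm_mul, sum_fourier_mul]
  refine (norm_sub_le _ _).trans ?_
  rw [fourier_norm_apply, fourier_norm_apply]
  norm_num

/-- The majorant of the Dirichlet kernels. -/
def maj (N : ℕ) (x : Circ) : ℝ := if (N : ℝ) * rho x ≤ 2 then N else 2 / rho x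

lemma norm_sum_fourier_le_maj (N : ℕ) (a : ℤ) (n : ℕ) (hn : n ≤ N) (x : Circ) :
    ‖∑ k ∈ Finset.Ico a (a + n), (fourier k x : ℂ)‖ ≤ maj N x := by
  unfold maj
  split_ifs with h
  · refine (norm_sum_fourier_le a n x).trans ?_
    exact_mod_cast hn
  · have h1 : 0 < rho x := by
      rcases (rho_nonneg x).lt_or_eq with h1 | h1
      · exact h1
      · rw [← h1, mul_zero] at h; exact absurd (by norm_num) h
    rw [le_div_iff₀ h1]
    exact norm_sum_fourier_mul_le a n x

lemma continuous_rho : Continuous rho := by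
  unfold rho
  exact (((fourier (T := 2 * Real.pi) 1).continuous).sub continuous_const).norm

lemma maj_nonneg (N : ℕ) (x : Circ) : 0 ≤ maj N x := by
  unfold maj
  have := rho_nonneg x
  split_ifs <;> positivity

lemma maj_le (N : ℕ) (x : Circ) : maj N x ≤ N := by
  unfold maj
  split_ifs with h
  · exact le_rfl
  · have h1 : 0 < rho x := by
      rcases (rho_nonneg x).lt_or_eq with h1 | h1
      · exact h1
      · rw [← h1, mul_zero] at h; exact absurd (by norm_num) h
    rw [div_le_iff₀ h1]
    linarith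

lemma measurable_maj (N : ℕ) : Measurable (maj N) := by
  unfold maj
  have h1 := continuous_rho.measurable
  refine Measurable.ite ?_ measurable_const (measurable_const.div h1)
  exact measurableSet_le (measurable_const.mul h1) measurable_const

lemma integrable_maj (N : ℕ) : Integrable (maj N) (haarAddCircle : Measure Circ) := by
  refine Integrable.of_bound (measurable_maj N).aestronglyMeasurable N
    (Eventually.of_forall fun x => ?_)
  rw [Real.norm_of_nonneg (maj_nonneg N x)]
  exact maj_le N x

lemma rho_coe (x : ℝ) : rho (x : Circ) = 2 * |Real.sin (x / 2)| := by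
  unfold rho
  rw [fourier_coe_apply]
  have h1 : (2 * Real.pi * Complex.I * (1 : ℤ) * x / (2 * Real.pi : ℝ) : ℂ) = (x : ℂ) * Complex.I := by
    have : (Real.pi : ℂ) ≠ 0 := by exact_mod_cast Real.pi_ne_zero
    push_cast
    field_simp
  rw [h1]
  have h2 : Complex.exp ((x : ℂ) * Complex.I) - 1 =
      Complex.exp ((x / 2 : ℝ) * Complex.I) * (2 * Complex.I * (Real.sin (x / 2) : ℝ)) := by
    rw [Complex.ofReal_sin, Complex.sin]
    have e1 : Complex.exp ((x : ℂ) * Complex.I) =
        Complex.exp ((x / 2 : ℝ) * Complex.I) * Complex.exp ((x / 2 : ℝ) * Complex.I) := by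
      rw [← Complex.exp_add]; congr 1; push_cast; ring
    have e2 : Complex.exp ((x / 2 : ℝ) * Complex.I) * Complex.exp (-((x / 2 : ℝ) : ℂ) * Complex.I) =
        1 := by
      rw [← Complex.exp_add]; simp
    rw [e1]
    have hI : Complex.I * Complex.I = -1 := Complex.I_mul_I
    linear_combination e2 + (Complex.exp ((x / 2 : ℝ) * Complex.I) *
      (Complex.exp ((x / 2 : ℝ) * Complex.I) - Complex.exp (-((x / 2 : ℝ) : ℂ) * Complex.I))) * hI
  rw [h2, norm_mul, Complex.norm_exp_ofReal_mul_I, one_mul, norm_mul, norm_mul, Complex.norm_I,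
    Complex.norm_real]
  simp

lemma maj_coe_le {N : ℕ} (hN : 1 ≤ N) {x : ℝ} (hx0 : x ≠ 0) (hx : |x| ≤ Real.pi) :
    maj N (x : Circ) ≤ Real.pi / |x| := by
  have hx' : 0 < |x| := abs_pos.mpr hx0
  have h1 : 2 / Real.pi * |x| ≤ rho (x : Circ) := by
    rw [rho_coe]
    have h2 : 2 / Real.pi * (|x| / 2) ≤ Real.sin (|x| / 2) :=
      Real.mul_le_sin (by positivity) (by linarith)
    have h3 : |Real.sin (x / 2)| = Real.sin (|x| / 2) := by
      have h4 : |x| / 2 = |x / 2| := by rw [abs_div, abs_of_pos (by norm_num : (0:ℝ) < 2)]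
      rw [h4, Real.abs_sin_eq_sin_abs_of_abs_le_pi]
      rw [← h4]; linarith [Real.pi_pos]
    rw [h3]
    linarith
  have hρ : 0 < rho (x : Circ) := lt_of_lt_of_le (by have := Real.pi_pos; positivity) h1
  have hpi := Real.pi_pos
  have h5 : 2 / rho (x : Circ) ≤ Real.pi / |x| := by
    rw [div_le_div_iff₀ hρ hx']
    have : 2 * |x| = Real.pi * (2 / Real.pi * |x|) := by field_simp
    rw [this]
    gcongr
  unfold maj
  split_ifs with h
  · refine le_trans ?_ h5
    rw [le_div_iff₀ hρ]
    exact h
  · exact h5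

/-- Bound for the Lebesgue constants. -/
theorem integral_maj_le {N : ℕ} (hN : 1 ≤ N) :
    ∫ x : Circ, maj N x ∂haarAddCircle ≤ 1 + Real.log N := by
  have hpi := Real.pi_pos
  have hN0 : (0:ℝ) < N := by exact_mod_cast hN
  have hN1 : (1:ℝ) ≤ N := by exact_mod_cast hN
  set a := Real.pi / N with ha
  have ha0 : 0 < a := by positivity
  have hapi : a ≤ Real.pi := div_le_self hpi.le hN1
  set g : ℝ → ℝ := fun x => maj N (x : Circ) with hg
  have hgm : Measurable g := (measurable_maj N).comp AddCircle.measurable_mk'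
  have hgint : ∀ u v : ℝ, IntervalIntegrable g volume u v := by
    intro u v
    refine (intervalIntegrable_const (c := (N:ℝ))).mono_fun' hgm.aestronglyMeasurable
      (Eventually.of_forall fun x => ?_)
    simp only
    rw [Real.norm_of_nonneg (maj_nonneg N _)]
    exact maj_le N _
  have h1 : ∫ x : Circ, maj N x ∂haarAddCircle =
      (2 * Real.pi)⁻¹ * ∫ x in (-Real.pi)..(-Real.pi + 2 * Real.pi), g x := by
    rw [integral_haarAddCircle, AddCircle.intervalIntegral_preimage (2 * Real.pi) (-Real.pi)]
    rfl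
  have e : -Real.pi + 2 * Real.pi = Real.pi := by ring
  rw [e] at h1
  have p1 : ∫ x in (-Real.pi)..(-a), g x ≤ Real.pi * Real.log N := by
    have i1 : ∫ x in (-Real.pi)..(-a), g x ≤ ∫ x in (-Real.pi)..(-a), Real.pi * (-x)⁻¹ := by
      refine intervalIntegral.integral_mono_on (by linarith) (hgint _ _) ?_ ?_
      · refine ContinuousOn.intervalIntegrable ?_
        rw [Set.uIcc_of_le (by linarith)]
        refine continuousOn_const.mul (ContinuousOn.inv₀ continuous_neg.continuousOn ?_)
        intro x hx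
        have := hx.2
        linarith
      · intro x hx
        have hxneg : x < 0 := by linarith [hx.2]
        have := maj_coe_le hN hxneg.ne (by rw [abs_of_neg hxneg]; linarith [hx.1])
        rw [abs_of_neg hxneg, div_eq_mul_inv] at this
        exact this
    refine i1.trans (le_of_eq ?_)
    rw [intervalIntegral.integral_const_mul]
    congr 1
    have := intervalIntegral.integral_comp_neg (a := -Real.pi) (b := -a) (fun x : ℝ => x⁻¹)
    rw [this, neg_neg, neg_neg, integral_inv_of_pos ha0 hpi, ha]
    congr 1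
    field_simp
  have p3 : ∫ x in a..Real.pi, g x ≤ Real.pi * Real.log N := by
    have i1 : ∫ x in a..Real.pi, g x ≤ ∫ x in a..Real.pi, Real.pi * x⁻¹ := by
      refine intervalIntegral.integral_mono_on hapi (hgint _ _) ?_ ?_
      · refine ContinuousOn.intervalIntegrable ?_
        rw [Set.uIcc_of_le hapi]
        refine continuousOn_const.mul (ContinuousOn.inv₀ continuousOn_id ?_)
        intro x hx
        have := hx.1
        exact (ha0.trans_le this).ne'
      · intro x hx
        have hxpos : 0 < x := ha0.trans_le hx.1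
        have := maj_coe_le hN hxpos.ne' (by rw [abs_of_pos hxpos]; exact hx.2)
        rw [abs_of_pos hxpos, div_eq_mul_inv] at this
        exact this
    refine i1.trans (le_of_eq ?_)
    rw [intervalIntegral.integral_const_mul]
    congr 1
    rw [integral_inv_of_pos ha0 hpi, ha]
    congr 1
    field_simp
  have p2 : ∫ x in (-a)..a, g x ≤ 2 * Real.pi := by
    have i1 : ∫ x in (-a)..a, g x ≤ ∫ x in (-a)..a, (N : ℝ) := by
      refine intervalIntegral.integral_mono_on (by linarith) (hgint _ _)
        intervalIntegrable_const ?_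
      intro x _
      exact maj_le N _
    refine i1.trans (le_of_eq ?_)
    rw [intervalIntegral.integral_const, smul_eq_mul, ha]
    field_simp
    ring
  have h2 : ∫ x in (-Real.pi)..Real.pi, g x =
      (∫ x in (-Real.pi)..(-a), g x) + (∫ x in (-a)..a, g x) + ∫ x in a..Real.pi, g x := by
    rw [intervalIntegral.integral_add_adjacent_intervals (hgint _ _) (hgint _ _),
      intervalIntegral.integral_add_adjacent_intervals (hgint _ _) (hgint _ _)]
  rw [h1, h2, inv_mul_le_iff₀ (by positivity)]
  linarith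

/-- A block of exponentials, translated. -/
theorem norm_block_le {N : ℕ} (hN : 1 ≤ N) (a : ℤ) (n : ℕ) (hn : n ≤ N) (y : Circ) :
    ‖(∑ k ∈ Finset.Ico a (a + n), (fourier (-k) y : ℂ) • ex k : L1)‖ ≤ 1 + Real.log N := by
  rw [norm_sum_ex]
  have h1 : ∀ x : Circ, ‖∑ k ∈ Finset.Ico a (a + n), (fourier (-k) y : ℂ) * fourier k x‖ =
      ‖∑ k ∈ Finset.Ico a (a + n), (fourier k (x - y) : ℂ)‖ := by
    intro x
    congr 1
    refine Finset.sum_congr rfl fun k _ => ?_
    simp only [fourier_apply]
    rw [sub_eq_add_neg, smul_add, toCircle_add, Circle.coe_mul, smul_neg, neg_smul, mul_comm]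
  simp only [h1]
  rw [integral_sub_right_eq_self
    (fun x : Circ => ‖∑ k ∈ Finset.Ico a (a + n), (fourier k x : ℂ)‖) y]
  refine le_trans (integral_mono_of_nonneg (Eventually.of_forall fun x => norm_nonneg _)
    (integrable_maj N) (Eventually.of_forall fun x => norm_sum_fourier_le_maj N a n hn x))
    (integral_maj_le hN)

end

end Pool.Agent.H23.Synth
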